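import Mathlib

namespace Pool.Agent.P.MP_60b77b_nt

open Finset

lemma card_modEq_fixed {α : Type*} [Finite α] {p : ℕ} (hp : p.Prime) (f : α → α)
    (hf : ∀ x, f^[p] x = x) : Nat.card α ≡ Nat.card {x // f x = x} [MOD p] := by
  classical
  have := Fintype.ofFinite α
  have : Fact p.Prime := ⟨hp⟩
  let f' : Function.End α := f
  have h := Equiv.Perm.card_fixedPoints_modEq (α := α) (f := f') (p := p)
    (n := 1) (by
      rw [pow_one]
      funext x
      have : (f' ^ p) = f^[p] := hom_coe_pow (fun g : Function.End α ↦ g) rfl (fun g h ↦ rfl) f p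
      rw [this]
      exact hf x)
  rw [Nat.card_eq_fintype_card, Nat.card_eq_fintype_card]
  convert h using 1
  exact Fintype.card_congr (Equiv.refl _)

lemma sum_nonfixed_eq_zero {X A : Type*} [AddCommMonoid A] {p : ℕ} (hp : p.Prime) (τ : X → X)
    (hτ : ∀ x, τ^[p] x = x) (φ : X → A)
    (hφ : ∀ x, τ x ≠ x → ∑ i ∈ range p, φ (τ^[i] x) = 0) (s : Finset X) :
    (∀ x ∈ s, τ x ≠ x) → (∀ x ∈ s, τ x ∈ s) → ∑ x ∈ s, φ x = 0 := by
  classical
  have : Fact p.Prime := ⟨hp⟩
  induction s using Finset.strongInduction with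
  | H s ih =>
    intro hs hst
    rcases s.eq_empty_or_nonempty with rfl | ⟨x, hx⟩
    · simp
    have hper : Function.IsPeriodicPt τ p x := hτ x
    have hmin : Function.minimalPeriod τ x = p :=
      Function.minimalPeriod_eq_prime hper (hs x hx)
    have hinj : Set.InjOn (fun i => τ^[i] x) (range p : Set ℕ) := by
      have := Function.iterate_injOn_Iio_minimalPeriod (f := τ) (x := x)
      rw [hmin] at this
      simpa [Finset.coe_range] using this
    set O : Finset X := (range p).image (fun i => τ^[i] x) with hO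
    have hmemO : ∀ i, τ^[i] x ∈ O := by
      intro i
      rw [hO, Finset.mem_image]
      exact ⟨i % p, Finset.mem_range.2 (Nat.mod_lt _ hp.pos), hper.iterate_mod_apply i⟩
    have hiter : ∀ i, τ^[i] x ∈ s := by
      intro i
      induction i with
      | zero => exact hx
      | succ i ih => rw [Function.iterate_succ_apply']; exact hst _ ih
    have hOs : O ⊆ s := by
      intro y hy
      rw [hO, Finset.mem_image] at hy
      obtain ⟨i, -, rfl⟩ := hy
      exact hiter i
    have hsumO : ∑ y ∈ O, φ y = 0 := by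
      rw [hO, Finset.sum_image hinj]
      exact hφ x (hs x hx)
    have hss : s \ O ⊂ s := Finset.sdiff_ssubset hOs ⟨x, hmemO 0⟩
    have hrest : ∑ y ∈ s \ O, φ y = 0 := by
      apply ih _ hss
      · intro y hy
        exact hs y (Finset.mem_sdiff.1 hy).1
      · intro y hy
        obtain ⟨hy1, hy2⟩ := Finset.mem_sdiff.1 hy
        refine Finset.mem_sdiff.2 ⟨hst y hy1, fun h => hy2 ?_⟩
        rw [hO, Finset.mem_image] at h
        obtain ⟨i, -, hi⟩ := h
        have : y = τ^[p - 1 + i] x := by
          rw [Function.iterate_add_apply, hi, ← Function.iterate_succ_apply,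
            Nat.succ_eq_add_one, Nat.sub_add_cancel hp.one_le, hτ]
        rw [this]
        exact hmemO _
    rw [← Finset.sum_sdiff hOs, hrest, hsumO, add_zero]

section CompactGroup

variable {Γ : Type*} [Group Γ]

/-- the largest `s`-stable subgroup of `M`. -/
def stableCore (s : Monoid.End Γ) (M : Subgroup Γ) : Subgroup Γ := ⨅ i : ℕ, M.comap (s ^ i)

lemma mem_stableCore {s : Monoid.End Γ} {M : Subgroup Γ} {g : Γ} :
    g ∈ stableCore s M ↔ ∀ i : ℕ, s^[i] g ∈ M := by
  rw [stableCore, Subgroup.mem_iInf]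
  refine forall_congr' fun i => ?_
  change (s ^ i) g ∈ M ↔ _
  rw [Monoid.End.coe_pow]

lemma stableCore_le (s : Monoid.End Γ) (M : Subgroup Γ) : stableCore s M ≤ M :=
  fun _ hg => mem_stableCore.1 hg 0

lemma map_mem_stableCore {s : Monoid.End Γ} {M : Subgroup Γ} {g : Γ} (hg : g ∈ stableCore s M) :
    s g ∈ stableCore s M := by
  rw [mem_stableCore] at hg ⊢
  intro i
  exact hg (i + 1)

lemma isOpen_stableCore [TopologicalSpace Γ] {p : ℕ} (hp : 0 < p) {s : Monoid.End Γ}
    (hsc : Continuous s) (hs : ∀ g, s^[p] g = g) {M : Subgroup Γ} (hM : IsOpen (M : Set Γ)) :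
    IsOpen (stableCore s M : Set Γ) := by
  have : (stableCore s M : Set Γ) = ⋂ i ∈ range p, (s^[i]) ⁻¹' (M : Set Γ) := by
    ext g
    simp only [SetLike.mem_coe, mem_stableCore, Set.mem_iInter, Set.mem_preimage]
    constructor
    · intro h i _
      exact h i
    · intro h i
      have hper : Function.IsPeriodicPt s p g := hs g
      rw [← hper.iterate_mod_apply i]
      exact h _ (Finset.mem_range.2 (Nat.mod_lt _ hp))
  rw [this]
  exact isOpen_biInter_finset fun i _ => hM.preimage (hsc.iterate i)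

/-- approximate fixed point in a stable coset. -/
lemma exists_approx_fixed {p : ℕ} (hp : p.Prime) (s : Monoid.End Γ) (hs : ∀ g, s^[p] g = g)
    {L M : Subgroup Γ} (hL : ∀ g ∈ L, s g ∈ L) (hM : ∀ g ∈ M, s g ∈ M) (hML : M ≤ L)
    (hidx : ¬ p ∣ M.index) (g : Γ) (hg : g⁻¹ * s g ∈ L) :
    ∃ x, g⁻¹ * x ∈ L ∧ x⁻¹ * s x ∈ M := by
  classical
  have hrel : ¬ p ∣ M.relIndex L := fun h =>
    hidx (h.trans (Dvd.intro _ (Subgroup.relIndex_mul_index hML)))
  have hne : M.relIndex L ≠ 0 := fun h => hrel (h ▸ dvd_zero p)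
  let t : L → L := fun l => ⟨g⁻¹ * s (g * l), by
    rw [map_mul, ← mul_assoc]
    exact L.mul_mem hg (hL _ l.2)⟩
  have ht : ∀ i (l : L), ((t^[i] l : L) : Γ) = g⁻¹ * s^[i] (g * l) := by
    intro i
    induction i with
    | zero => intro l; simp
    | succ i ih =>
      intro l
      rw [Function.iterate_succ_apply', Function.iterate_succ_apply']
      change g⁻¹ * s (g * (t^[i] l : L)) = _
      rw [ih, mul_inv_cancel_left]
  let T : L ⧸ M.subgroupOf L → L ⧸ M.subgroupOf L :=
    Quotient.map' t (fun a b hab => by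
      rw [QuotientGroup.leftRel_apply, Subgroup.mem_subgroupOf] at hab ⊢
      have := hM _ hab
      convert this using 1
      simp [t, mul_assoc])
  have hT : ∀ i (l : L), T^[i] (QuotientGroup.mk l) = QuotientGroup.mk (t^[i] l) := by
    intro i
    induction i with
    | zero => intro l; rfl
    | succ i ih =>
      intro l
      rw [Function.iterate_succ_apply', Function.iterate_succ_apply', ih]
      rfl
  have hTp : ∀ x, T^[p] x = x := by
    intro x
    induction x using QuotientGroup.induction_on with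
    | H l =>
      rw [hT]
      congr 1
      apply Subtype.ext
      rw [ht, hs, inv_mul_cancel_left]
  have : Finite (L ⧸ M.subgroupOf L) := Nat.finite_of_card_ne_zero hne
  have hmod := card_modEq_fixed hp T hTp
  have hne' : Nat.card {x // T x = x} ≠ 0 := by
    intro h0
    rw [h0] at hmod
    exact hrel ((Nat.modEq_zero_iff_dvd).1 hmod)
  obtain ⟨⟨x, hx⟩⟩ := (Nat.card_ne_zero.1 hne').1
  induction x using QuotientGroup.induction_on with
  | H l =>
    refine ⟨g * l, by simp, ?_⟩
    have h1 : (QuotientGroup.mk l : L ⧸ M.subgroupOf L) = QuotientGroup.mk (t l) := hx.symm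
    rw [QuotientGroup.eq, Subgroup.mem_subgroupOf] at h1
    convert h1 using 1
    simp [t, mul_assoc]

variable [TopologicalSpace Γ] [IsTopologicalGroup Γ] [CompactSpace Γ] [T2Space Γ]

/-- exact fixed point in a stable coset. -/
lemma exists_fixed {p : ℕ} (hp : p.Prime) (s : Monoid.End Γ) (hsc : Continuous s)
    (hs : ∀ g, s^[p] g = g)
    (hbasis : ∀ W ∈ nhds (1 : Γ), ∃ M : Subgroup Γ, IsOpen (M : Set Γ) ∧ (M : Set Γ) ⊆ W)
    (hidx : ∀ M : Subgroup Γ, IsOpen (M : Set Γ) → ¬ p ∣ M.index)
    {L : Subgroup Γ} (hLo : IsOpen (L : Set Γ)) (hL : ∀ g ∈ L, s g ∈ L)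
    (g : Γ) (hg : g⁻¹ * s g ∈ L) :
    ∃ u, g⁻¹ * u ∈ L ∧ s u = u := by
  let C : Set Γ := {x | g⁻¹ * x ∈ L}
  have hC : IsClosed C :=
    (L.isClosed_of_isOpen hLo).preimage (continuous_const.mul continuous_id)
  let f : Γ → Γ := fun x => x⁻¹ * s x
  have hf : Continuous f := continuous_inv.mul hsc
  have hcl : IsClosed (f '' C) := (hC.isCompact.image hf).isClosed
  have h1 : (1 : Γ) ∈ f '' C := by
    rw [← hcl.closure_eq, mem_closure_iff_nhds]
    intro W hW
    obtain ⟨M0, hM0o, hM0W⟩ := hbasis W hW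
    have hopen : IsOpen ((stableCore s (M0 ⊓ L) : Subgroup Γ) : Set Γ) :=
      isOpen_stableCore hp.pos hsc hs (hM0o.inter hLo)
    obtain ⟨x, hx1, hx2⟩ := exists_approx_fixed hp s hs hL
      (M := stableCore s (M0 ⊓ L)) (fun _ h => map_mem_stableCore h)
      ((stableCore_le _ _).trans inf_le_right) (hidx _ hopen) g hg
    exact ⟨f x, hM0W (stableCore_le _ _ hx2).1, x, hx1, rfl⟩
  obtain ⟨u, hu1, hu2⟩ := h1
  exact ⟨u, hu1, (inv_mul_eq_one.1 hu2).symm⟩

/-- the averaging lemma. -/
lemma exists_invariant_rep {k V : Type*} [Field k] [AddCommGroup V] [Module k V]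
    {p : ℕ} (hp : p.Prime) [CharP k p] (s : Monoid.End Γ) (hsc : Continuous s)
    (hs : ∀ g, s^[p] g = g)
    (hbasis : ∀ W ∈ nhds (1 : Γ), ∃ M : Subgroup Γ, IsOpen (M : Set Γ) ∧ (M : Set Γ) ⊆ W)
    (hidx : ∀ M : Subgroup Γ, IsOpen (M : Set Γ) → ¬ p ∣ M.index)
    (π : Representation k Γ V) (v : V) (hv : IsOpen {g : Γ | π g v = v})
    (W : Submodule k V) (ha : ∀ g, ∑ i ∈ range p, π (s^[i] g) v ∈ W)
    (hb : ∀ u, s u = u → π u v - v ∈ W) :
    ∃ w, (∀ g, π g w = w) ∧ w - v ∈ W := by
  classical
  let St : Subgroup Γ :=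
    { carrier := {g : Γ | π g v = v}
      mul_mem' := fun {a b} ha hb => by
        change π (a * b) v = v
        rw [map_mul, Module.End.mul_apply, hb, ha]
      one_mem' := by simp
      inv_mem' := fun {a} ha => by
        change π a⁻¹ v = v
        have h : π a v = v := ha
        conv_lhs => rw [← h]
        rw [← Module.End.mul_apply, ← map_mul, inv_mul_cancel, map_one, Module.End.one_apply] }
  let L := stableCore s St
  have hLo : IsOpen (L : Set Γ) := isOpen_stableCore hp.pos hsc hs hv
  have hL : ∀ g ∈ L, s g ∈ L := fun _ h => map_mem_stableCore h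
  have hLv : ∀ g ∈ L, π g v = v := fun g h => stableCore_le s St h
  have : Finite (Γ ⧸ L) := Subgroup.quotient_finite_of_isOpen L hLo
  have := Fintype.ofFinite (Γ ⧸ L)
  let φ : Γ ⧸ L → V := Quotient.lift (fun g => π g v) (fun a b hab => by
    have hab' : a⁻¹ * b ∈ L := QuotientGroup.leftRel_apply.1 hab
    have := hLv _ hab'
    change π a v = π b v
    conv_lhs => rw [← this]
    rw [← Module.End.mul_apply, ← map_mul, mul_inv_cancel_left])
  have hφ : ∀ g : Γ, φ (QuotientGroup.mk g) = π g v := fun g => rfl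
  let τ : Γ ⧸ L → Γ ⧸ L := Quotient.map' s (fun a b hab => by
    rw [QuotientGroup.leftRel_apply] at hab ⊢
    have := hL _ hab
    rwa [map_mul, map_inv] at this)
  have hτ : ∀ i (g : Γ), τ^[i] (QuotientGroup.mk g) = QuotientGroup.mk (s^[i] g) := by
    intro i
    induction i with
    | zero => intro l; rfl
    | succ i ih =>
      intro l
      rw [Function.iterate_succ_apply', Function.iterate_succ_apply', ih]
      rfl
  have hτp : ∀ x, τ^[p] x = x := by
    intro x
    induction x using QuotientGroup.induction_on with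
    | H g => rw [hτ, hs]
  set Fx : Finset (Γ ⧸ L) := univ.filter (fun x => τ x = x) with hFx
  have hcard : (Fx.card : k) ≠ 0 := by
    have hmod := card_modEq_fixed hp τ hτp
    have h1 : Nat.card {x // τ x = x} = Fx.card := by
      rw [Nat.card_eq_fintype_card, Fintype.card_subtype]
    rw [h1] at hmod
    intro h0
    rw [CharP.cast_eq_zero_iff k p] at h0
    exact hidx L hLo ((hmod.dvd_iff dvd_rfl).2 h0)
  let w0 : V := ∑ x, φ x
  have hw0 : ∀ g, π g w0 = w0 := by
    intro g
    have h1 : ∀ x : Γ ⧸ L, π g (φ x) = φ (g • x) := by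
      intro x
      induction x using QuotientGroup.induction_on with
      | H a =>
        rw [MulAction.Quotient.smul_mk, smul_eq_mul, hφ, hφ, map_mul, Module.End.mul_apply]
    simp only [w0, map_sum, h1]
    exact Fintype.sum_equiv (MulAction.toPerm g) _ _ (fun x => rfl)
  have hnon : ∑ x ∈ univ.filter (fun x => ¬ τ x = x), W.mkQ (φ x) = 0 := by
    apply sum_nonfixed_eq_zero hp τ hτp (fun x => W.mkQ (φ x))
    · intro x _
      induction x using QuotientGroup.induction_on with
      | H g =>
        simp only [hτ, hφ]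
        rw [← map_sum, Submodule.mkQ_apply, Submodule.Quotient.mk_eq_zero]
        exact ha g
    · intro x hx
      exact (Finset.mem_filter.1 hx).2
    · intro x hx
      refine Finset.mem_filter.2 ⟨Finset.mem_univ _, fun h => (Finset.mem_filter.1 hx).2 ?_⟩
      have h2 : τ^[p - 1] (τ (τ x)) = τ^[p - 1] (τ x) := by rw [h]
      rw [← Function.iterate_succ_apply, ← Function.iterate_succ_apply τ (p - 1) x,
        Nat.succ_eq_add_one, Nat.sub_add_cancel hp.one_le, hτp, hτp] at h2
      exact h2
  have hfix : ∀ x ∈ Fx, W.mkQ (φ x) = W.mkQ v := by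
    intro x hx
    have hx' : τ x = x := (Finset.mem_filter.1 hx).2
    induction x using QuotientGroup.induction_on with
    | H g =>
      have h1 : (QuotientGroup.mk g : Γ ⧸ L) = QuotientGroup.mk (s g) := hx'.symm
      rw [QuotientGroup.eq] at h1
      obtain ⟨u, hu1, hu2⟩ := exists_fixed hp s hsc hs hbasis hidx hLo hL g h1
      have h2 : (QuotientGroup.mk g : Γ ⧸ L) = QuotientGroup.mk u := QuotientGroup.eq.2 hu1
      rw [h2, hφ, Submodule.mkQ_apply, Submodule.mkQ_apply, Submodule.Quotient.eq]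
      exact hb u hu2
  have hsum : W.mkQ w0 = (Fx.card : k) • W.mkQ v := by
    simp only [w0, map_sum]
    rw [← Finset.sum_filter_add_sum_filter_not univ (fun x => τ x = x), hnon, add_zero,
      Finset.sum_congr rfl hfix, Finset.sum_const, Nat.cast_smul_eq_nsmul]
  refine ⟨(Fx.card : k)⁻¹ • w0, fun g => by rw [map_smul, hw0], ?_⟩
  rw [← Submodule.Quotient.eq, ← Submodule.mkQ_apply, ← Submodule.mkQ_apply, map_smul, hsum,
    smul_smul, inv_mul_cancel₀ hcard, one_smul]

end CompactGroup

end Pool.Agent.P.MP_60b77b_nt
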