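import Mathlib

namespace Pool.Agent.P.MP_60b77b_nt

/-- Admissible representation of a topological group: every vector has open stabiliser and the
invariants of every compact open subgroup are finite-dimensional. -/
def IsAdmissible {k G V : Type*} [Field k] [Group G] [TopologicalSpace G] [AddCommGroup V]
    [Module k V] (π : Representation k G V) : Prop :=
  (∀ v : V, IsOpen {g : G | π g v = v}) ∧
    ∀ K : Subgroup G, IsOpen (K : Set G) → IsCompact (K : Set G) →
      FiniteDimensional k (Representation.invariants (π.comp K.subtype))

/-- The representation induced by `ρ` on `ker A / (ker A ∩ im B)`, for endomorphisms `A`, `B`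
commuting with `ρ`. -/
def kerModImage {k H V : Type*} [Field k] [Group H] [AddCommGroup V] [Module k V]
    (ρ : Representation k H V) (A B : Module.End k V)
    (hA : ∀ h, Commute A (ρ h)) (hB : ∀ h, Commute B (ρ h)) :
    Representation k H
      (LinearMap.ker A ⧸ (LinearMap.range B).comap (LinearMap.ker A).subtype) :=
  (ρ.subrepresentation (LinearMap.ker A) (fun h v hv => by
      have h1 : A (ρ h v) = ρ h (A v) := LinearMap.congr_fun (hA h).eq v
      have h2 : A v = 0 := hv
      change A (ρ h v) = 0
      rw [h1, h2, map_zero])).quotient
    ((LinearMap.range B).comap (LinearMap.ker A).subtype) (fun h v hv => by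
      obtain ⟨w, hw⟩ := hv
      have h1 : B (ρ h w) = ρ h (B w) := LinearMap.congr_fun (hB h).eq w
      exact ⟨ρ h w, by rw [h1, hw]; rfl⟩)

end Pool.Agent.P.MP_60b77b_nt
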