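import Mathlib
import Pool.Agent.P.MP_60b77b_nt.Defs
import Pool.Agent.P.MP_60b77b_nt.Core

namespace Pool.Agent.P.MP_60b77b_nt

open Finset

lemma not_dvd_index {Γ : Type*} [Group Γ] [TopologicalSpace Γ] [IsTopologicalGroup Γ]
    [CompactSpace Γ] {p : ℕ} (hp : p.Prime)
    (hP : ∀ g : Γ, ∀ W ∈ nhds (1 : Γ), ∃ j : ℕ, ¬ p ∣ j ∧ g ^ j ∈ W)
    (M : Subgroup Γ) (hM : IsOpen (M : Set Γ)) : ¬ p ∣ M.index := by
  intro hdvd
  have : Fact p.Prime := ⟨hp⟩
  have : Finite (Γ ⧸ M) := Subgroup.quotient_finite_of_isOpen M hM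
  have : M.FiniteIndex := Subgroup.finiteIndex_of_finite_quotient
  have hNo : IsOpen (M.normalCore : Set Γ) :=
    Subgroup.isOpen_of_isClosed_of_finiteIndex _
      (M.normalCore_isClosed (M.isClosed_of_isOpen hM))
  have h1 : p ∣ Nat.card (Γ ⧸ M.normalCore) :=
    hdvd.trans (Subgroup.index_dvd_of_le M.normalCore_le)
  obtain ⟨x, hx⟩ := exists_prime_orderOf_dvd_card' p h1
  induction x using QuotientGroup.induction_on with
  | H g =>
    obtain ⟨j, hj1, hj2⟩ := hP g _ (hNo.mem_nhds M.normalCore.one_mem)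
    apply hj1
    rw [← hx]
    apply orderOf_dvd_of_pow_eq_one
    rw [← QuotientGroup.mk_pow, QuotientGroup.eq_one_iff]
    exact hj2

variable {G : Type*} [Group G] [TopologicalSpace G] [IsTopologicalGroup G] [T2Space G]

lemma exists_invariant_rep' {k V : Type*} [Field k] [AddCommGroup V] [Module k V]
    {p : ℕ} (hp : p.Prime) [CharP k p] (s : Monoid.End G) (hsc : Continuous s)
    (hs : ∀ g, s^[p] g = g)
    (hbasis : ∀ W ∈ nhds (1 : G), ∃ M : Subgroup G, IsOpen (M : Set G) ∧ (M : Set G) ⊆ W)
    (K : Subgroup G) (hKc : IsCompact (K : Set G)) (hKs : ∀ g ∈ K, s g ∈ K)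
    (hP : ∀ g ∈ K, ∀ W ∈ nhds (1 : G), ∃ j : ℕ, ¬ p ∣ j ∧ g ^ j ∈ W)
    (π : Representation k G V) (v : V) (hv : IsOpen {g : G | π g v = v})
    (W : Submodule k V) (ha : ∀ g, ∑ i ∈ range p, π (s^[i] g) v ∈ W)
    (hb : ∀ u ∈ K, s u = u → π u v - v ∈ W) :
    ∃ w, (∀ g ∈ K, π g w = w) ∧ w - v ∈ W := by
  have : CompactSpace K := isCompact_iff_compactSpace.1 hKc
  let s' : Monoid.End K := (MonoidHom.comp s K.subtype).codRestrict K (fun g => hKs _ g.2)
  have hs'1 : ∀ g : K, ((s' g : K) : G) = s g := fun g => rfl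
  have hs'i : ∀ i (g : K), ((s'^[i] g : K) : G) = s^[i] g := by
    intro i
    induction i with
    | zero => intro g; rfl
    | succ i ih =>
      intro g
      rw [Function.iterate_succ_apply', Function.iterate_succ_apply', hs'1, ih]
  have hs'c : Continuous s' :=
    Continuous.subtype_mk (hsc.comp continuous_subtype_val) _
  have hnh : ∀ W' ∈ nhds (1 : K), ∃ W'' ∈ nhds (1 : G), (Subtype.val ⁻¹' W'' : Set K) ⊆ W' := by
    intro W' hW'
    rw [nhds_induced] at hW'
    exact hW'
  obtain ⟨w, hw1, hw2⟩ := exists_invariant_rep hp s' hs'c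
    (fun g => Subtype.ext (by rw [hs'i, hs]))
    (fun W' hW' => by
      obtain ⟨W'', h1, h2⟩ := hnh W' hW'
      obtain ⟨M, hM1, hM2⟩ := hbasis W'' h1
      exact ⟨M.comap K.subtype, hM1.preimage continuous_subtype_val,
        fun x hx => h2 (hM2 hx)⟩)
    (not_dvd_index hp (fun g W' hW' => by
      obtain ⟨W'', h1, h2⟩ := hnh W' hW'
      obtain ⟨j, hj1, hj2⟩ := hP g g.2 W'' h1
      exact ⟨j, hj1, h2 hj2⟩))
    (π.comp K.subtype) v (hv.preimage continuous_subtype_val) W
    (fun g => by
      have := ha g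
      simpa [hs'i] using this)
    (fun u hu => hb u u.2 (by rw [← hs'1, hu]))
  exact ⟨w, fun g hg => hw1 ⟨g, hg⟩, hw2⟩

theorem isAdmissible_kerModImage {k V : Type*} [Field k] [AddCommGroup V] [Module k V]
    {p : ℕ} (hp : p.Prime) [CharP k p] (s : Monoid.End G) (hsc : Continuous s)
    (hs : ∀ g, s^[p] g = g)
    (hbasis : ∀ W ∈ nhds (1 : G), ∃ M : Subgroup G, IsOpen (M : Set G) ∧ (M : Set G) ⊆ W)
    (K0 : Subgroup G) (hK0o : IsOpen (K0 : Set G)) (hK0c : IsCompact (K0 : Set G))
    (hP : ∀ g ∈ K0, ∀ W ∈ nhds (1 : G), ∃ j : ℕ, ¬ p ∣ j ∧ g ^ j ∈ W)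
    (π : Representation k G V) (hπ : IsAdmissible π)
    (H : Subgroup G) (hH : ∀ g, s g = g → g ∈ H)
    (A B : Module.End k V) (hA : ∀ h : H, Commute A ((π.comp H.subtype) h))
    (hB : ∀ h : H, Commute B ((π.comp H.subtype) h)) (hAB : ∀ v, A (B v) = 0)
    (ha : ∀ v, A v = 0 → ∀ g, ∑ i ∈ range p, π (s^[i] g) v ∈ LinearMap.range B) :
    IsAdmissible (kerModImage (π.comp H.subtype) A B hA hB) := by
  let U := (LinearMap.range B).comap (LinearMap.ker A).subtype
  let τ : Representation k H (LinearMap.ker A ⧸ U) := kerModImage (π.comp H.subtype) A B hA hB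
  change IsAdmissible τ
  have hτmk : ∀ (h : H) (v w : LinearMap.ker A), (w : V) = π h v →
      τ h (Submodule.Quotient.mk v) = Submodule.Quotient.mk w := by
    intro h v w hw
    exact congrArg (Submodule.Quotient.mk (p := U)) (Subtype.ext hw.symm)
  have hker : ∀ (h : H) (v : LinearMap.ker A), π h v ∈ LinearMap.ker A := by
    intro h v
    have h1 : A (π h v) = π h (A v) := LinearMap.congr_fun (hA h).eq v
    have h2 : A v = 0 := v.2
    change A (π h v) = 0
    rw [h1, h2, map_zero]
  constructor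
  · intro c
    induction c using Submodule.Quotient.induction_on with
    | H v =>
      let St : Subgroup H :=
        { carrier := {h : H | τ h (Submodule.Quotient.mk v) = Submodule.Quotient.mk v}
          mul_mem' := fun {a b} ha hb => by
            change τ (a * b) _ = _
            rw [map_mul, Module.End.mul_apply, hb, ha]
          one_mem' := by simp
          inv_mem' := fun {a} ha => by
            change τ a⁻¹ _ = _
            have h : τ a (Submodule.Quotient.mk v) = Submodule.Quotient.mk v := ha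
            conv_lhs => rw [← h]
            rw [← Module.End.mul_apply, ← map_mul, inv_mul_cancel, map_one,
              Module.End.one_apply] }
      have h1 : IsOpen (Subtype.val ⁻¹' {g : G | π g v = v} : Set H) :=
        (hπ.1 v).preimage continuous_subtype_val
      refine St.isOpen_of_mem_nhds (g := 1) (Filter.mem_of_superset (h1.mem_nhds (by simp)) ?_)
      intro h hh
      exact hτmk h v v (Eq.symm hh)
  · intro K hKo _
    have h1 : (K : Set H) ∈ nhds (1 : H) := hKo.mem_nhds K.one_mem
    rw [nhds_induced] at h1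
    obtain ⟨W, hW1, hW2⟩ := h1
    obtain ⟨M, hMo, hMW⟩ := hbasis W hW1
    let K1 := stableCore s (M ⊓ K0)
    have hK1o : IsOpen (K1 : Set G) := isOpen_stableCore hp.pos hsc hs (hMo.inter hK0o)
    have hK1le : K1 ≤ M ⊓ K0 := stableCore_le _ _
    have hK1c : IsCompact (K1 : Set G) :=
      hK0c.of_isClosed_subset (K1.isClosed_of_isOpen hK1o) (fun x hx => (hK1le hx).2)
    have hfin := hπ.2 K1 hK1o hK1c
    let Y : Submodule k (LinearMap.ker A) :=
      (Representation.invariants (π.comp K1.subtype)).comap (LinearMap.ker A).subtype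
    have hY : FiniteDimensional k Y := by
      let f : Y →ₗ[k] Representation.invariants (π.comp K1.subtype) :=
        ((LinearMap.ker A).subtype.comp Y.subtype).codRestrict _ (fun y => y.2)
      refine FiniteDimensional.of_injective f ?_
      intro a b hab
      have h2 : ((f a : _) : V) = f b := congrArg Subtype.val hab
      exact Subtype.ext (Subtype.ext h2)
    have hle : Representation.invariants (τ.comp K.subtype) ≤ Y.map U.mkQ := by
      intro c hc
      induction c using Submodule.Quotient.induction_on with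
      | H v =>
        obtain ⟨w, hw1, hw2⟩ := exists_invariant_rep' hp s hsc hs hbasis K1 hK1c
          (fun _ h => map_mem_stableCore h) (fun g hg => hP g (hK1le hg).2) π v (hπ.1 v)
          (LinearMap.range B) (ha v v.2) (fun u hu hsu => by
            have huK : (⟨u, hH u hsu⟩ : H) ∈ K := hW2 (hMW (hK1le hu).1)
            have h2 : τ ⟨u, hH u hsu⟩ (Submodule.Quotient.mk v) = Submodule.Quotient.mk v :=
              hc ⟨_, huK⟩
            rw [hτmk _ v ⟨_, hker ⟨u, hH u hsu⟩ v⟩ rfl, Submodule.Quotient.eq] at h2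
            exact h2)
        have hwA : w ∈ LinearMap.ker A := by
          obtain ⟨y, hy⟩ := hw2
          have : w = B y + v := by rw [hy]; abel
          have h2 : A v = 0 := v.2
          change A w = 0
          rw [this, map_add, hAB, h2, add_zero]
        refine ⟨⟨w, hwA⟩, fun g => hw1 g g.2, ?_⟩
        rw [Submodule.mkQ_apply, Submodule.Quotient.eq]
        exact hw2
    exact Submodule.finiteDimensional_of_le hle

end Pool.Agent.P.MP_60b77b_nt
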