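import Pool.Agent.P.MP_60b77b_nt.Key
import Pool.Agent.P.MP_60b77b_nt.Defs

namespace Pool.Agent.P.MP_60b77b_nt

open Finset

theorem exists_sj {Γ R : Type*} [Group Γ] [Finite R] {p : ℕ} (L : ℕ → Subgroup Γ)
    (anti : Antitone L)
    (pw : ∀ j, ∀ a ∈ L 0, ∀ b ∈ L 0, a⁻¹ * b ∈ L j ↔ (a ^ p)⁻¹ * b ^ p ∈ L (j + 1))
    (f : ℕ → Γ → R) (hf : ∀ m, ∀ a ∈ L m, ∀ b ∈ L m, f m a = f m b → a⁻¹ * b ∈ L (m + 1)) :
    ∃ e, ∀ j, e ≤ j → ∀ g ∈ L (j + 1), ∃ a ∈ L j, (a ^ p)⁻¹ * g ∈ L (j + 2) := by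
  let Q := fun m => L m ⧸ (L (m + 1)).subgroupOf (L m)
  have h1 : ∀ m, Function.Injective fun x : Q m => f m (x.out : L m) := fun m x y e => by
    rw [← QuotientGroup.out_eq' x, ← QuotientGroup.out_eq' y]
    exact QuotientGroup.eq.2 (hf m _ x.out.2 _ y.out.2 e)
  have h2 : ∀ m, Finite (Q m) := fun m => Finite.of_injective _ (h1 m)
  have h0 : ∀ m (a : L m), (a : Γ) ∈ L 0 := fun m a => anti (Nat.zero_le m) a.2
  let φ : ∀ m, Q m → Q (m + 1) := fun m x => QuotientGroup.mk ⟨(x.out : L m) ^ p, by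
    simpa using (pw m 1 (one_mem _) _ (h0 m x.out)).1 (by simp)⟩
  have h3 : ∀ m, Function.Injective (φ m) := fun m x y e => by
    rw [← QuotientGroup.out_eq' x, ← QuotientGroup.out_eq' y]
    exact QuotientGroup.eq.2 ((pw (m + 1) _ (h0 m x.out) _ (h0 m y.out)).2
      ((QuotientGroup.eq (s := (L (m + 1 + 1)).subgroupOf (L (m + 1)))).1 e))
  have h4 : Monotone fun m => Nat.card (Q m) :=
    monotone_nat_of_le_succ fun m => Nat.card_le_card_of_injective _ (h3 m)
  have h5 : BddAbove (Set.range fun m => Nat.card (Q m)) :=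
    ⟨Nat.card R, by
      rintro _ ⟨m, rfl⟩
      exact Nat.card_le_card_of_injective _ (h1 m)⟩
  obtain ⟨e, he⟩ := Nat.sSup_mem (Set.range_nonempty _) h5
  refine ⟨e, fun j hj g hg => ?_⟩
  obtain ⟨x, hx⟩ := ((h3 j).bijective_of_nat_card_le
    (((le_csSup h5 ⟨j + 1, rfl⟩).trans he.ge).trans (h4 hj))).2 (QuotientGroup.mk ⟨g, hg⟩)
  exact ⟨_, x.out.2, (QuotientGroup.eq (s := (L (j + 1 + 1)).subgroupOf (L (j + 1)))).1 hx⟩

variable {G : Type*} [Group G] [TopologicalSpace G] [IsTopologicalGroup G] [T2Space G]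

theorem isAdmissible_of_fil {k V : Type*} [Field k] [AddCommGroup V] [Module k V]
    {p : ℕ} (hp : p.Prime) [CharP k p] (s : G →* G) (hsc : Continuous s)
    (hs : ∀ g, s^[p] g = g) (L : ℕ → Subgroup G) (anti : Antitone L)
    (opn : ∀ j, IsOpen (L j : Set G)) (cpt : ∀ j, IsCompact (L j : Set G))
    (nh : ∀ W ∈ nhds (1 : G), ∃ j, (L j : Set G) ⊆ W) (stab : ∀ j, ∀ g ∈ L j, s g ∈ L j)
    (comm : ∀ i j, ∀ a ∈ L i, ∀ b ∈ L j, a * b * a⁻¹ * b⁻¹ ∈ L (i + j + 2))
    (pw : ∀ j, ∀ a ∈ L 0, ∀ b ∈ L 0, a⁻¹ * b ∈ L j ↔ (a ^ p)⁻¹ * b ^ p ∈ L (j + 1)) (e : ℕ)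
    (sj : ∀ j, e ≤ j → ∀ g ∈ L (j + 1), ∃ a ∈ L j, (a ^ p)⁻¹ * g ∈ L (j + 2))
    (π : Representation k G V) (hπ : IsAdmissible π)
    (H : Subgroup G) (hH : ∀ g, s g = g → g ∈ H)
    (A B : Module.End k V) (hA : ∀ h : H, Commute A ((π.comp H.subtype) h))
    (hB : ∀ h : H, Commute B ((π.comp H.subtype) h)) (hAB : ∀ v, A (B v) = 0)
    (ha : ∀ v, A v = 0 → ∀ g, ∑ i ∈ range p, π (s^[i] g) v ∈ LinearMap.range B) :
    IsAdmissible (kerModImage (π.comp H.subtype) A B hA hB) := by
  let U := (LinearMap.range B).comap (LinearMap.ker A).subtype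
  let τ : Representation k H (LinearMap.ker A ⧸ U) := kerModImage (π.comp H.subtype) A B hA hB
  change IsAdmissible τ
  have hτmk : ∀ (h : H) (v w : LinearMap.ker A), (w : V) = π h v →
      τ h (Submodule.Quotient.mk v) = Submodule.Quotient.mk w := by
    intro h v w hw
    exact congrArg (Submodule.Quotient.mk (p := U)) (Subtype.ext hw.symm)
  have hker : ∀ (h : H) (v : LinearMap.ker A), π h v ∈ LinearMap.ker A := by
    intro h v
    have h1 : A (π h v) = π h (A v) := LinearMap.congr_fun (hA h).eq v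
    have h2 : A v = 0 := v.2
    change A (π h v) = 0
    rw [h1, h2, map_zero]
  have hsm : ∀ v, ∃ j, ∀ g ∈ L j, π g v = v := fun v =>
    nh _ ((hπ.1 v).mem_nhds (by simp))
  constructor
  · intro c
    induction c using Submodule.Quotient.induction_on with
    | H v =>
      obtain ⟨j, hj⟩ := hsm v
      rw [isOpen_iff_mem_nhds]
      intro a ha
      have h1 : IsOpen {h : H | ((a⁻¹ * h : H) : G) ∈ L j} :=
        (opn j).preimage (continuous_subtype_val.comp (continuous_const.mul continuous_id))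
      refine Filter.mem_of_superset (h1.mem_nhds (by simp)) fun h hh => ?_
      show τ h _ = _
      rw [← mul_inv_cancel_left a h, map_mul, Module.End.mul_apply, hτmk _ v v (hj _ hh).symm]
      exact ha
  · intro K hKo _
    have h1 : (K : Set H) ∈ nhds (1 : H) := hKo.mem_nhds K.one_mem
    rw [nhds_induced] at h1
    obtain ⟨W, hW1, hW2⟩ := h1
    obtain ⟨j, hj⟩ := nh W hW1
    let t := j + e
    have : CompactSpace (L t) := isCompact_iff_compactSpace.1 (cpt t)
    let s' : L t →* L t := (s.comp (L t).subtype).codRestrict _ fun g => stab t _ g.2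
    have hs' : ∀ i (g : L t), ((s'^[i] g : L t) : G) = s^[i] g := fun i g => by
      induction i with
      | zero => rfl
      | succ i ih =>
        rw [Function.iterate_succ_apply', Function.iterate_succ_apply', ← ih]
        rfl
    have h0 : ∀ a : L t, (a : G) ∈ L 0 := fun a => anti (Nat.zero_le t) a.2
    have hu : Unif p s' fun i => (L (t + i)).subgroupOf (L t) :=
      { top := fun g => g.2
        anti := fun a b hab g hg => anti (Nat.add_le_add_left hab t) hg
        opn := fun i => (opn _).preimage continuous_subtype_val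
        nh := fun W' hW' => by
          rw [nhds_induced] at hW'
          obtain ⟨W'', h2, h3⟩ := hW'
          obtain ⟨i, hi⟩ := nh W'' h2
          exact ⟨i, fun g hg => h3 (hi (anti (Nat.le_add_left i t) hg))⟩
        stab := fun i g hg => stab _ _ hg
        comm := fun i i' a ha b hb => anti (by omega) (comm _ _ _ ha _ hb)
        pw := fun i a b => pw (t + i) _ (h0 a) _ (h0 b)
        sj := fun i g hg => by
          obtain ⟨a, ha, h2⟩ := sj (t + i) (by omega) g hg
          exact ⟨⟨a, anti (Nat.le_add_right t i) ha⟩, ha, h2⟩ }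
    let P : Submodule k V := ((Representation.invariants (τ.comp K.subtype)).comap U.mkQ).map
      (LinearMap.ker A).subtype
    have h2 := key (π := π.comp (L t).subtype) hp hu
      (fun v => by
        obtain ⟨i, hi⟩ := hsm v
        exact ⟨i, fun g hg => hi _ (anti (Nat.le_add_left i t) hg)⟩)
      (Continuous.subtype_mk (hsc.comp continuous_subtype_val) _)
      (fun g => Subtype.ext (by rw [hs', hs])) (hπ.2 _ (opn t) (cpt t)) P (LinearMap.range B)
      (by
        rintro _ ⟨w, rfl⟩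
        refine ⟨⟨B w, hAB w⟩, Submodule.mem_comap.2 ?_, rfl⟩
        rw [Submodule.mkQ_apply, (Submodule.Quotient.mk_eq_zero U).2 ⟨w, rfl⟩]
        exact zero_mem _)
      (by
        rintro g _ ⟨v, -, rfl⟩
        simpa [hs'] using ha v v.2 g)
      (by
        rintro c hc _ ⟨v, hv, rfl⟩
        have hc' : s c = c := congrArg Subtype.val hc
        have h3 : τ ⟨c, hH c hc'⟩ (Submodule.Quotient.mk v) = Submodule.Quotient.mk v :=
          hv ⟨_, hW2 (hj (anti (Nat.le_add_right j e) c.2))⟩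
        rw [hτmk _ v ⟨_, hker ⟨c, hH c hc'⟩ v⟩ rfl, eq_comm, Submodule.Quotient.eq] at h3
        exact h3)
    let l : (LinearMap.ker A ⧸ U) →ₗ[k] V ⧸ LinearMap.range B :=
      U.mapQ _ (LinearMap.ker A).subtype le_rfl
    have hl : Function.Injective l := by
      rw [← LinearMap.ker_eq_bot, Submodule.ker_mapQ]
      exact Submodule.mkQ_map_self U
    refine FiniteDimensional.of_injective (l.restrict (p := Representation.invariants
      (τ.comp K.subtype)) (q := P.map (LinearMap.range B).mkQ) fun c hc => ?_)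
      fun a b hab => Subtype.ext (hl (congrArg Subtype.val hab))
    obtain ⟨v, rfl⟩ := U.mkQ_surjective c
    exact ⟨v, ⟨v, hc, rfl⟩, rfl⟩

end Pool.Agent.P.MP_60b77b_nt
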