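import Pool.Agent.P.MP_60b77b_nt.Main2

namespace Pool.Agent.P.MP_60b77b_nt

open Finset ValuativeRel

variable (F : Type*) [Field F] [ValuativeRel F] [TopologicalSpace F]
  [IsNonarchimedeanLocalField F] (k : Type*) [Field k]

theorem exists_unif : ∃ t : Fˣ, valuation F (t : F) < 1 ∧
    ∀ u : Fˣ, ∃ n : ℤ, valuation F (u : F) = valuation F (t : F) ^ n := by
  obtain ⟨g, hg⟩ := IsCyclic.exists_generator (α := (ValueGroupWithZero F)ˣ)
  obtain ⟨a, ha⟩ := valuation_surjective (K := F) (g : ValueGroupWithZero F)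
  have ha0 : a ≠ 0 := fun e => g.ne_zero (by rw [← ha, e, map_zero])
  have h1 : ∀ u : Fˣ, ∃ n : ℤ, valuation F (u : F) = valuation F a ^ n := fun u => by
    obtain ⟨n, hn⟩ := hg (Units.mk0 (valuation F (u : F)) (by simp))
    exact ⟨n, by rw [ha, ← Units.val_zpow_eq_zpow_val]; exact (congrArg Units.val hn).symm⟩
  rcases lt_trichotomy (valuation F a) 1 with h | h | h
  · exact ⟨Units.mk0 a ha0, h, h1⟩
  · obtain ⟨b, hb0, hb1⟩ := Valuation.IsNontrivial.exists_lt_one (v := valuation F)
    obtain ⟨n, hn⟩ := h1 (Units.mk0 b hb0)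
    rw [h, one_zpow] at hn
    exact absurd hn hb1.ne
  · refine ⟨(Units.mk0 a ha0)⁻¹, by simpa using inv_lt_one_of_one_lt₀ h, fun u => ?_⟩
    obtain ⟨n, hn⟩ := h1 u
    exact ⟨-n, by simp [hn]⟩

/-- Additive characters of the multiplicative group that vanish near `1`. -/
def Chr : Submodule k (Fˣ → k) where
  carrier := {φ | (∀ a b, φ (a * b) = φ a + φ b) ∧ ∀ᶠ u in nhds 1, φ u = 0}
  add_mem' := fun {φ ψ} h h' => ⟨fun a b => by
    simp only [Pi.add_apply, h.1, h'.1]
    abel, (h.2.and h'.2).mono fun u e => by simp [e.1, e.2]⟩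
  zero_mem' := ⟨fun _ _ => by simp, Filter.Eventually.of_forall fun _ => rfl⟩
  smul_mem' := fun c φ h => ⟨fun a b => by simp [h.1, mul_add], h.2.mono fun u e => by simp [e]⟩

variable {F k}

omit [ValuativeRel F] [IsNonarchimedeanLocalField F] in
theorem Chr.zpow (φ : Chr F k) (a : Fˣ) (n : ℤ) : φ.1 (a ^ n) = n • φ.1 a :=
  map_zpow (MonoidHom.mk' (fun u => Multiplicative.ofAdd (φ.1 u)) φ.2.1) a n

omit [ValuativeRel F] [IsNonarchimedeanLocalField F] in
theorem Chr.one (φ : Chr F k) : φ.1 1 = 0 := by simpa using Chr.zpow φ 1 0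

theorem chr_fin {U : Set Fˣ} (hU : U ∈ nhds 1) : ∃ T : Finset Fˣ, ∀ φ : Chr F k,
    (∀ u ∈ U, φ.1 u = 0) → (∀ u ∈ T, φ.1 u = 0) → φ = 0 := by
  classical
  obtain ⟨t, -, ht⟩ := exists_unif F
  have h1 : IsCompact {x : F | valuation F x = 1} := by
    have := (IsNonarchimedeanLocalField.isCompact_closedBall F 1).diff
      ((valuation F).isOpen_ball 1)
    refine (congrArg IsCompact (Set.ext fun x => ?_)).mp this
    simp [eq_iff_le_not_lt]
  have h2 := Units.isEmbedding_val₀.isInducing.isCompact_preimage' h1 fun x hx =>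
    ⟨Units.mk0 x fun e => by simp [e] at hx, rfl⟩
  obtain ⟨T, -, hT⟩ := h2.elim_nhds_subcover (fun a => {u | a⁻¹ * u ∈ U}) fun a _ =>
    (continuous_const.mul continuous_id).continuousAt.preimage_mem_nhds (by simpa using hU)
  refine ⟨insert t T, fun φ h3 h4 => Subtype.ext (funext fun u => ?_)⟩
  obtain ⟨n, hn⟩ := ht u
  have h5 := hT (show valuation F (((t ^ n)⁻¹ * u : Fˣ) : F) = 1 by
    simp [hn, zpow_ne_zero])
  simp only [Set.mem_iUnion, Set.mem_ofPred_eq] at h5
  obtain ⟨a, ha, h6⟩ := h5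
  have e : u = t ^ n * (a * (a⁻¹ * ((t ^ n)⁻¹ * u))) := by simp
  rw [e, φ.2.1, φ.2.1, Chr.zpow, h4 t (mem_insert_self _ _), h4 a (mem_insert_of_mem ha), h3 _ h6]
  simp

theorem exists_chr0 {p : ℕ} [Fact p.Prime] [CharP k p] {Q : Type*} [AddCommGroup Q]
    [Module (ZMod p) Q] {x : Q} (hx : x ≠ 0) : ∃ f : Q →+ k, f x ≠ 0 := by
  by_contra hc
  refine hx ((Module.forall_dual_apply_eq_zero_iff (ZMod p) x).1 fun f => ?_)
  exact (map_eq_zero (ZMod.castHom (dvd_refl p) k)).1 (not_not.1 fun e =>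
    hc ⟨(ZMod.castHom (dvd_refl p) k).toAddMonoidHom.comp f.toAddMonoidHom, e⟩)

theorem exists_chr {p : ℕ} (hp : p.Prime) [CharP k p] {Q : Type*} [AddCommGroup Q]
    (h : ∀ q : Q, p • q = 0) {x : Q} (hx : x ≠ 0) : ∃ f : Q →+ k, f x ≠ 0 :=
  @exists_chr0 k _ p ⟨hp⟩ _ Q _ (AddCommGroup.zmodModule h) x hx

theorem chr_inf {p : ℕ} (hp : p.Prime) (hF : (p : F) = 0) [CharP k p] :
    ¬ FiniteDimensional k (Chr F k) := by
  intro hf
  have : Fact p.Prime := ⟨hp⟩
  have : CharP F p := (CharP.charP_iff_prime_eq_zero hp).2 hF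
  have h1 : ∀ᶠ u in nhds (1 : Fˣ), ∀ φ : Chr F k, φ.1 u = 0 := by
    obtain ⟨s, hs⟩ := hf.fg_top
    refine ((Filter.eventually_all_finset s).2 fun φ _ => φ.2.2).mono fun u hu φ => ?_
    have h2 : φ ∈ Submodule.span k (s : Set (Chr F k)) := hs ▸ trivial
    exact Submodule.span_le (p := LinearMap.ker ((LinearMap.proj u).comp (Chr F k).subtype)) |>.2
      (fun ψ h => hu ψ h) h2
  obtain ⟨t, ht1, ht⟩ := exists_unif F
  have ht0 : valuation F (t : F) ≠ 0 := by simp
  rw [Units.isEmbedding_val₀.isInducing.nhds_eq_comap, Filter.eventually_comap,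
    Filter.eventually_iff, IsValuativeTopology.mem_nhds_iff'] at h1
  obtain ⟨γ, hγ⟩ := h1
  have : MulArchimedean (ValueGroupWithZero F) :=
    ValuativeRel.isRankLeOne_iff_mulArchimedean.mp inferInstance
  obtain ⟨m, hm⟩ := exists_pow_lt₀ ht1 γ
  have hδ : valuation F (t : F) ^ (p * m + 1) < 1 := pow_lt_one₀ zero_le ht1 (by omega)
  have hv : ∀ w : F, valuation F (w - 1) < 1 → valuation F w = 1 := fun w hw => by
    simpa using (valuation F).map_one_add_of_lt hw
  let x : Fˣ := Units.mk0 (1 + (t : F) ^ (p * m + 1)) fun e => by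
    have := hv (1 + (t : F) ^ (p * m + 1)) (by simpa using hδ)
    simp [e] at this
  let U : Subgroup Fˣ :=
    { carrier := {w | valuation F ((w : F) - 1) < valuation F (t : F) ^ (p * m + 1)}
      mul_mem' := fun {a b} ha hb => by
        have e : ((a * b : Fˣ) : F) - 1 = a * (b - 1) + (a - 1) := by
          rw [Units.val_mul]
          ring
        show valuation F _ < _
        rw [e]
        refine (valuation F).map_add_lt ?_ ha
        rwa [map_mul, hv a (lt_trans ha hδ), one_mul]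
      one_mem' := by simpa using zero_lt_iff.2 (pow_ne_zero _ ht0)
      inv_mem' := fun {a} ha => by
        have e : ((a⁻¹ : Fˣ) : F) - 1 = -((a : F)⁻¹ * (a - 1)) := by
          rw [Units.val_inv_eq_inv_val, mul_sub, inv_mul_cancel₀ a.ne_zero]
          ring
        show valuation F _ < _
        rwa [e, Valuation.map_neg, map_mul, map_inv₀, hv a (lt_trans ha hδ), inv_one, one_mul] }
  let W := (powMonoidHom p : Fˣ →* Fˣ).range ⊔ U
  have hx : x ∉ W := fun h => by
    obtain ⟨_, ⟨y, rfl⟩, w, hw, e⟩ := Subgroup.mem_sup.1 h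
    have e1 : (y : F) ^ p * w = 1 + (t : F) ^ (p * m + 1) := congrArg Units.val e
    have e2 : ((y : F) - 1) ^ p * w = (t : F) ^ (p * m + 1) - (w - 1) := by
      rw [sub_pow_char, one_pow, sub_mul, e1]
      ring
    have e3 := congrArg (valuation F) e2
    rw [map_mul, hv w (lt_trans hw hδ), mul_one, (valuation F).map_sub_eq_of_lt_left
      (by rw [map_pow]; exact hw), map_pow, map_pow] at e3
    obtain ⟨n, hn⟩ := ht (Units.mk0 ((y : F) - 1) fun e => by
      rw [e, map_zero, zero_pow hp.ne_zero] at e3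
      exact pow_ne_zero _ ht0 e3.symm)
    rw [Units.val_mk0] at hn
    rw [hn, ← zpow_natCast, ← zpow_natCast, ← zpow_mul] at e3
    have e4 := zpow_right_injective₀ (zero_lt_iff.2 ht0) ht1.ne e3
    have e5 : (p : ℤ) ∣ 1 := ⟨n - m, by push_cast at e4; linarith⟩
    exact hp.one_lt.ne' (by exact_mod_cast Int.eq_one_of_dvd_one (by positivity) e5)
  obtain ⟨f, hf⟩ := exists_chr (k := k) hp (Q := Additive (Fˣ ⧸ W)) (fun q => by
    obtain ⟨y, rfl⟩ := QuotientGroup.mk_surjective (s := W) q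
    exact (QuotientGroup.eq_one_iff (N := W) (y ^ p)).2 (Subgroup.mem_sup_left ⟨y, rfl⟩))
    (x := Additive.ofMul (x : Fˣ ⧸ W)) fun e =>
      hx ((QuotientGroup.eq_one_iff x).1 (ofMul_eq_zero.1 e))
  let φ : Chr F k := ⟨fun u => f (Additive.ofMul (u : Fˣ ⧸ W)),
    fun a b => by simp only [QuotientGroup.mk_mul, ofMul_mul, map_add], by
      rw [Units.isEmbedding_val₀.isInducing.nhds_eq_comap, Filter.eventually_comap,
        Filter.eventually_iff, IsValuativeTopology.mem_nhds_iff']
      refine ⟨Units.mk0 _ (pow_ne_zero (p * m + 1) ht0), fun z hz u e => ?_⟩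
      subst e
      beta_reduce
      rw [(QuotientGroup.eq_one_iff u).2 (Subgroup.mem_sup_right hz), ofMul_one, map_zero]⟩
  refine hf (hγ (a := (x : F)) ?_ x rfl φ)
  show valuation F (1 + (t : F) ^ (p * m + 1) - 1) < γ
  rw [add_sub_cancel_left, map_pow]
  exact lt_of_le_of_lt (pow_le_pow_right_of_le_one' ht1.le (by nlinarith [hp.pos])) hm

theorem cex {p : ℕ} (hp : p.Prime) (hF : (p : F) = 0) [CharP k p] :
    ∃ (ι : (Fin p → F)ˣ →* GL (Fin p) F) (σ : MulAut (Fin p → F)ˣ)
      (π : Representation k (Fin p → F)ˣ (k × Chr F k)),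
      Topology.IsClosedEmbedding ι ∧ Continuous σ ∧ σ ^ p = 1 ∧ IsAdmissible π ∧
      (∀ g, π g = π (σ g)) ∧ ∀ g, σ g = g → π g = 1 := by
  obtain ⟨m, rfl⟩ : ∃ m, p = m + 1 := ⟨p - 1, by have := hp.pos; omega⟩
  have : T2Space F := t2Space_field
  let c : ZMod (m + 1) ≃ ZMod (m + 1) := Equiv.addRight 1
  let σ : MulAut (Fin (m + 1) → F)ˣ :=
    Units.mapEquiv (MulEquiv.arrowCongr c.symm (MulEquiv.refl F))
  have hσ : ∀ g (i : ZMod (m + 1)), (σ g).val i = g.val (i + 1 : ZMod (m + 1)) := fun _ _ => rfl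
  let N0 : (Fin (m + 1) → F) →* F :=
    { toFun := fun f => ∏ i, f i
      map_one' := by simp
      map_mul' := fun a b => prod_mul_distrib }
  let N := Units.map N0
  have hN : Continuous N := Continuous.units_map N0 (by
    show Continuous fun f : Fin (m + 1) → F => ∏ i, f i
    fun_prop)
  let π : Representation k (Fin (m + 1) → F)ˣ (k × Chr F k) :=
    { toFun := fun g =>
        { toFun := fun v => (v.1 + v.2.1 (N g), v.2)
          map_add' := fun a b => Prod.ext (add_add_add_comm _ _ _ _) rfl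
          map_smul' := fun c a => Prod.ext (mul_add c _ _).symm rfl }
      map_one' := LinearMap.ext fun v => Prod.ext (by
        show v.1 + v.2.1 (N 1) = v.1
        rw [map_one, Chr.one, add_zero]) rfl
      map_mul' := fun a b => LinearMap.ext fun v => Prod.ext (by
        show v.1 + v.2.1 (N (a * b)) = v.1 + v.2.1 (N b) + v.2.1 (N a)
        rw [map_mul, v.2.2.1]
        ring) rfl }
  have hπ : ∀ g v, π g v = v ↔ v.2.1 (N g) = 0 := fun g v =>
    ⟨fun e => add_eq_left.1 (congrArg Prod.fst e), fun e => Prod.ext (add_eq_left.2 e) rfl⟩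
  refine ⟨Units.map (Matrix.diagonalRingHom (Fin (m + 1)) F).toMonoidHom, σ, π,
    Topology.IsClosedEmbedding.units_map (Function.LeftInverse.isClosedEmbedding
      (f := Matrix.diag) Matrix.diag_diagonal continuous_id.matrix_diag
      continuous_id.matrix_diagonal),
    Continuous.units_map _ (continuous_pi fun i => continuous_apply _), ?_, ⟨fun v => ?_, ?_⟩,
    fun g => ?_, fun g hg => ?_⟩
  · have h1 : ∀ (j : ℕ) g (i : ZMod (m + 1)), ((σ ^ j) g).val i =
        g.val (i + j : ZMod (m + 1)) := fun j => by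
      induction j with
      | zero => simp
      | succ j ih =>
        intro g i
        rw [pow_succ, MulAut.mul_apply, ih, hσ, Nat.cast_succ, add_assoc]
    ext g i
    refine (h1 (m + 1) g i).trans ?_
    rw [ZMod.natCast_self]
    exact congrArg g.val (add_zero (M := ZMod (m + 1)) i)
  · rw [isOpen_iff_mem_nhds]
    intro a ha
    have h1 : Filter.Tendsto (fun g => N (a⁻¹ * g)) (nhds a) (nhds 1) := by
      exact (hN.comp (continuous_const.mul continuous_id) :
        Continuous fun g => N (a⁻¹ * g)).tendsto' a 1 (by simp)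
    refine (h1.eventually v.2.2.2).mono fun g hg => (hπ g v).2 ?_
    rw [← mul_inv_cancel_left a g, map_mul, v.2.2.1, hg, (hπ a v).1 ha, add_zero]
  · intro K hK _
    let j : Fˣ →* (Fin (m + 1) → F)ˣ := Units.map (MonoidHom.mulSingle (fun _ => F) 0)
    have hj : Continuous j := Continuous.units_map _ (by
      show Continuous fun x : F => (Pi.mulSingle 0 x : Fin (m + 1) → F)
      exact continuous_mulSingle (A := fun _ : Fin (m + 1) => F) 0)
    obtain ⟨T, hT⟩ := chr_fin (k := k) ((hK.preimage hj).mem_nhds (by simp))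
    let l : k × Chr F k →ₗ[k] k × (T → k) := LinearMap.id.prodMap
      ((LinearMap.funLeft k k Subtype.val).comp (Chr F k).subtype)
    refine FiniteDimensional.of_injective (l.domRestrict _) ((injective_iff_map_eq_zero _).2
      fun v hv => ?_)
    have hv' : l v.1 = 0 := hv
    refine Subtype.ext (Prod.ext (Prod.ext_iff.1 hv').1 (hT _ (fun u hu => ?_)
      fun u hu => congrFun (Prod.ext_iff.1 hv').2 ⟨u, hu⟩))
    have h1 := (hπ _ _).1 (v.2 ⟨j u, hu⟩)
    have h2 : N (j u) = u := Units.ext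
      ((Finset.prod_pi_mulSingle' (0 : Fin (m + 1)) (u : F) univ).trans (by simp))
    exact h2 ▸ h1
  · have : N g = N (σ g) := Units.ext (Equiv.prod_comp c g.val).symm
    exact LinearMap.ext fun v => Prod.ext (congrArg (fun u => v.1 + v.2.1 u) this) rfl
  · have h1 : ∀ j : ℕ, g.val (j : ZMod (m + 1)) = g.val 0 := fun j => by
      induction j with
      | zero => rw [Nat.cast_zero]; rfl
      | succ j ih => rw [Nat.cast_succ, ← hσ, hg, ih]
    have h2 : N g = Units.map (Pi.evalMonoidHom (fun _ => F) 0) g ^ (m + 1) := Units.ext (by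
      show ∏ i, g.val i = g.val 0 ^ (m + 1)
      have h3 : ∀ i : Fin (m + 1), g.val i = g.val 0 := fun (i : ZMod (m + 1)) =>
        (congrArg g.val (ZMod.natCast_zmod_val i).symm).trans (h1 i.val)
      rw [prod_congr rfl fun i _ => h3 i]
      simp)
    refine LinearMap.ext fun v => (hπ g v).2 ?_
    rw [h2, ← zpow_natCast, Chr.zpow, natCast_zsmul, nsmul_eq_mul, CharP.cast_eq_zero, zero_mul]

theorem fin_of_adm {G : Type*} [Group G] [TopologicalSpace G] {n : ℕ} {ι : G →* GL (Fin n) F}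
    (hι : Topology.IsClosedEmbedding ι) {H : Subgroup G} (hH : IsClosed (H : Set G))
    {V : Type*} [AddCommGroup V] [Module k V] {π : Representation k G V} (hπ : ∀ h : H, π h = 1)
    {A B : Module.End k V} (hA : A = 0) (hB : B = 0) {h₀ h₁}
    (h : IsAdmissible (kerModImage (π.comp H.subtype) A B h₀ h₁)) : FiniteDimensional k V := by
  subst hA hB
  obtain ⟨t, ht, -⟩ := exists_unif F
  have hj := hι.comp hH.isClosedEmbedding_subtypeVal
  have h1 := h.2 ((cong n ht.le 0).comap (ι.comp H.subtype))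
    ((isOpen_cong ht.le (by simp) 0).preimage hj.continuous)
    (hj.isCompact_preimage (isCompact_cong ht.le 0))
  let U := (LinearMap.range (0 : Module.End k V)).comap (LinearMap.ker (0 : Module.End k V)).subtype
  refine FiniteDimensional.of_injective ((U.mkQ.comp
    (LinearMap.id.codRestrict _ fun _ => rfl)).codRestrict
      (Representation.invariants ((kerModImage (π.comp H.subtype) 0 0 h₀ h₁).comp
        ((cong n ht.le 0).comap (ι.comp H.subtype)).subtype)) fun φ g => ?_)
    ((injective_iff_map_eq_zero _).2 fun φ e => ?_)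
  · exact congrArg (Submodule.Quotient.mk (p := U)) (Subtype.ext (LinearMap.congr_fun (hπ g) _))
  · obtain ⟨w, hw⟩ := (Submodule.Quotient.mk_eq_zero U).1 (congrArg Subtype.val e)
    exact hw.symm

end Pool.Agent.P.MP_60b77b_nt
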