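import Mathlib

namespace Pool.Agent.P.MP_60b77b_nt

open ValuativeRel

variable {F : Type*} [Field F] [ValuativeRel F] {n : ℕ}

/-- matrices with all entries of valuation at most `γ`. -/
def Small (γ : ValueGroupWithZero F) (X : Matrix (Fin n) (Fin n) F) : Prop :=
  ∀ i j, valuation F (X i j) ≤ γ

lemma Small.add {γ : ValueGroupWithZero F} {X Y : Matrix (Fin n) (Fin n) F} (hX : Small γ X)
    (hY : Small γ Y) : Small γ (X + Y) :=
  fun i j => (valuation F).map_add_le (hX i j) (hY i j)

lemma Small.mul {γ δ : ValueGroupWithZero F} {X Y : Matrix (Fin n) (Fin n) F} (hX : Small γ X)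
    (hY : Small δ Y) : Small (γ * δ) (X * Y) := by
  intro i j
  rw [Matrix.mul_apply]
  apply (valuation F).map_sum_le
  intro l _
  rw [map_mul]
  exact mul_le_mul' (hX i l) (hY l j)

lemma Small.mono {γ δ : ValueGroupWithZero F} {X : Matrix (Fin n) (Fin n) F} (hX : Small γ X)
    (h : γ ≤ δ) : Small δ X := fun i j => (hX i j).trans h

lemma small_zero (γ : ValueGroupWithZero F) : Small γ (0 : Matrix (Fin n) (Fin n) F) :=
  fun i j => by simp

lemma Small.nsmul {γ : ValueGroupWithZero F} {X : Matrix (Fin n) (Fin n) F} (hX : Small γ X)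
    (j : ℕ) : Small (valuation F (j : F) * γ) (j • X) := by
  intro a b
  rw [Matrix.smul_apply, nsmul_eq_mul, map_mul]
  exact mul_le_mul' le_rfl (hX a b)

lemma Small.mul_sub_one {γ : ValueGroupWithZero F} (hγ : γ ≤ 1) {X Y : Matrix (Fin n) (Fin n) F}
    (hX : Small γ (X - 1)) (hY : Small γ (Y - 1)) : Small γ (X * Y - 1) := by
  have : X * Y - 1 = (X - 1) * (Y - 1) + (X - 1) + (Y - 1) := by noncomm_ring
  rw [this]
  exact (((hX.mul hY).mono (mul_le_of_le_one_right' hγ)).add hX).add hY

lemma Small.pow_sub_one {γ : ValueGroupWithZero F} (hγ : γ ≤ 1) {X : Matrix (Fin n) (Fin n) F}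
    (hX : Small γ (X - 1)) (j : ℕ) : Small γ (X ^ j - 1) := by
  induction j with
  | zero => simpa using small_zero γ
  | succ j ih => rw [pow_succ]; exact ih.mul_sub_one hγ hX

lemma Small.pow_sub {γ : ValueGroupWithZero F} (hγ : γ ≤ 1) {X : Matrix (Fin n) (Fin n) F}
    (hX : Small γ (X - 1)) (j : ℕ) : Small (γ * γ) (X ^ j - 1 - j • (X - 1)) := by
  induction j with
  | zero => simpa using small_zero (γ * γ)
  | succ j ih =>
    have : X ^ (j + 1) - 1 - (j + 1) • (X - 1) =
        (X ^ j - 1) * (X - 1) + (X ^ j - 1 - j • (X - 1)) := by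
      rw [pow_succ, add_smul, one_smul]
      noncomm_ring
    rw [this]
    exact ((hX.pow_sub_one hγ j).mul hX).add ih

lemma Small.pow_char {γ γ0 : ValueGroupWithZero F} (hγ0 : γ0 ≤ 1) (hγ : γ ≤ γ0) {l : ℕ}
    (hl : valuation F (l : F) ≤ γ0) {X : Matrix (Fin n) (Fin n) F}
    (hX : Small γ (X - 1)) : Small (γ * γ0) (X ^ l - 1) := by
  have : X ^ l - 1 = (X ^ l - 1 - l • (X - 1)) + l • (X - 1) := by abel
  rw [this]
  refine ((hX.pow_sub (hγ.trans hγ0) l).mono (mul_le_mul' le_rfl hγ)).add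
    ((hX.nsmul l).mono ?_)
  rw [mul_comm]
  exact mul_le_mul' le_rfl hl

/-- congruence subgroup of level `γ0 ^ (m + 1)`. -/
def cong (n : ℕ) {γ0 : ValueGroupWithZero F} (hγ0 : γ0 ≤ 1) (m : ℕ) : Subgroup (GL (Fin n) F) where
  carrier := {g | Small (γ0 ^ (m + 1)) ((g : Matrix (Fin n) (Fin n) F) - 1) ∧
    Small (γ0 ^ (m + 1)) (((g⁻¹ : GL (Fin n) F) : Matrix (Fin n) (Fin n) F) - 1)}
  mul_mem' := fun {a b} ha hb => by
    have h := pow_le_one' hγ0 (m + 1)
    refine ⟨?_, ?_⟩
    · rw [Units.val_mul]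
      exact ha.1.mul_sub_one h hb.1
    · rw [mul_inv_rev, Units.val_mul]
      exact hb.2.mul_sub_one h ha.2
  one_mem' := by
    refine ⟨?_, ?_⟩
    · simpa using small_zero _
    · simpa using small_zero _
  inv_mem' := fun {a} ha => ⟨ha.2, by rw [inv_inv]; exact ha.1⟩

lemma cong_antitone {γ0 : ValueGroupWithZero F} (hγ0 : γ0 ≤ 1) : Antitone (cong n hγ0) := by
  intro a b hab g hg
  have : γ0 ^ (b + 1) ≤ γ0 ^ (a + 1) := pow_le_pow_right_of_le_one' hγ0 (by omega)
  exact ⟨hg.1.mono this, hg.2.mono this⟩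

lemma pow_mem_cong {γ0 : ValueGroupWithZero F} (hγ0 : γ0 ≤ 1) {l : ℕ}
    (hl : valuation F (l : F) ≤ γ0) {g : GL (Fin n) F} (hg : g ∈ cong n hγ0 0) (m : ℕ) :
    g ^ (l ^ m) ∈ cong n hγ0 m := by
  induction m with
  | zero => simpa using hg
  | succ m ih =>
    have h1 : γ0 ^ (m + 1) ≤ γ0 := by
      rw [pow_succ]
      exact mul_le_of_le_one_left' (pow_le_one' hγ0 m)
    rw [pow_succ, pow_mul]
    refine ⟨?_, ?_⟩
    · rw [Units.val_pow_eq_pow_val, pow_succ γ0 (m + 1)]
      exact ih.1.pow_char hγ0 h1 hl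
    · rw [← inv_pow, Units.val_pow_eq_pow_val, pow_succ γ0 (m + 1)]
      exact ih.2.pow_char hγ0 h1 hl

variable [TopologicalSpace F] [IsNonarchimedeanLocalField F]

lemma t2Space_field : T2Space F := by
  apply IsTopologicalAddGroup.t2Space_of_zero_sep
  intro x hx
  refine ⟨{z | valuation F z < valuation F x}, ?_, by simp⟩
  rw [IsValuativeTopology.mem_nhds_zero_iff]
  exact ⟨Units.mk0 (valuation F x) (by simpa using hx), fun z hz => hz⟩

lemma isOpen_ball_le {γ : ValueGroupWithZero F} (hγ : γ ≠ 0) :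
    IsOpen {x : F | valuation F x ≤ γ} := by
  rw [isOpen_iff_mem_nhds]
  intro x hx
  rw [IsValuativeTopology.mem_nhds_iff']
  refine ⟨Units.mk0 γ hγ, fun z hz => ?_⟩
  have h1 : valuation F (z - x) ≤ γ := le_of_lt hz
  have h2 : z = (z - x) + x := by ring
  change valuation F z ≤ γ
  rw [h2]
  exact (valuation F).map_add_le h1 hx

lemma isOpen_small {γ : ValueGroupWithZero F} (hγ : γ ≠ 0) :
    IsOpen {X : Matrix (Fin n) (Fin n) F | Small γ (X - 1)} := by
  have : {X : Matrix (Fin n) (Fin n) F | Small γ (X - 1)} =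
      ⋂ i, ⋂ j, (fun X : Matrix (Fin n) (Fin n) F => (X - 1) i j) ⁻¹'
        {x : F | valuation F x ≤ γ} := by
    ext X
    simp [Small]
  rw [this]
  refine isOpen_iInter_of_finite fun i => isOpen_iInter_of_finite fun j =>
    (isOpen_ball_le hγ).preimage ?_
  exact (continuous_id.sub continuous_const).matrix_elem i j

lemma isCompact_small (γ : ValueGroupWithZero F) :
    IsCompact {X : Matrix (Fin n) (Fin n) F | Small γ (X - 1)} := by
  have h1 : IsCompact {X : Matrix (Fin n) (Fin n) F | Small γ X} := by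
    have := isCompact_univ_pi (X := fun _ : Fin n => Fin n → F)
      (s := fun _ => Set.pi Set.univ fun _ => {x : F | valuation F x ≤ γ})
      (fun _ => isCompact_univ_pi fun _ => IsNonarchimedeanLocalField.isCompact_closedBall F γ)
    have h3 : {X : Matrix (Fin n) (Fin n) F | Small γ X} =
        Set.pi Set.univ fun _ : Fin n => Set.pi Set.univ fun _ : Fin n =>
          {x : F | valuation F x ≤ γ} := by
      ext X
      exact ⟨fun h i _ j _ => h i j, fun h i j => h i trivial j trivial⟩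
    rw [h3]
    exact this
  have h2 := h1.image (continuous_add_const (1 : Matrix (Fin n) (Fin n) F))
  convert h2 using 1
  ext X
  simp only [Set.mem_ofPred_eq, Set.mem_image]
  constructor
  · intro h
    exact ⟨X - 1, h, by simp⟩
  · rintro ⟨Y, hY, rfl⟩
    simpa using hY

lemma isOpen_cong {γ0 : ValueGroupWithZero F} (hγ0 : γ0 ≤ 1) (h0 : γ0 ≠ 0) (m : ℕ) :
    IsOpen (cong n hγ0 m : Set (GL (Fin n) F)) :=
  ((isOpen_small (pow_ne_zero _ h0)).preimage Units.continuous_val).inter
    ((isOpen_small (pow_ne_zero _ h0)).preimage Units.continuous_coe_inv)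

lemma isCompact_cong {γ0 : ValueGroupWithZero F} (hγ0 : γ0 ≤ 1) (m : ℕ) :
    IsCompact (cong n hγ0 m : Set (GL (Fin n) F)) := by
  have : T2Space F := t2Space_field
  have h1 := (isCompact_small (n := n) (γ0 ^ (m + 1))).prod
    ((isCompact_small (n := n) (γ0 ^ (m + 1))).image MulOpposite.continuous_op)
  have h2 := (Units.isClosedEmbedding_embedProduct
    (α := Matrix (Fin n) (Fin n) F)).isCompact_preimage h1
  convert h2 using 1
  ext g
  simp only [SetLike.mem_coe, Set.mem_preimage, Units.embedProduct_apply, Set.mem_prod,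
    Set.mem_ofPred_eq, Set.mem_image, MulOpposite.op_inj, exists_eq_right]
  rfl

lemma exists_cong_subset {γ0 : ValueGroupWithZero F} (hγ : γ0 < 1)
    {W : Set (GL (Fin n) F)} (hW : W ∈ nhds (1 : GL (Fin n) F)) :
    ∃ m, (cong n hγ.le m : Set (GL (Fin n) F)) ⊆ W := by
  have : MulArchimedean (ValueGroupWithZero F) :=
    ValuativeRel.isRankLeOne_iff_mulArchimedean.mp inferInstance
  have : T2Space F := t2Space_field
  apply exists_subset_nhds_of_isCompact (V := fun m => (cong n hγ.le m : Set (GL (Fin n) F)))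
  · exact directed_of_isDirected_le (fun a b hab => cong_antitone hγ.le hab)
  · exact fun m => isCompact_cong hγ.le m
  · have h1 : (⋂ m, (cong n hγ.le m : Set (GL (Fin n) F))) ⊆ {1} := by
      intro g hg
      rw [Set.mem_iInter] at hg
      rw [Set.mem_singleton_iff]
      ext i j
      have h2 : valuation F (((g : Matrix (Fin n) (Fin n) F) - 1) i j) = 0 := by
        by_contra hne
        obtain ⟨m, hm⟩ := exists_pow_lt₀ hγ (Units.mk0 _ hne)
        have h3 := (hg m).1 i j
        have h4 : γ0 ^ (m + 1) ≤ γ0 ^ m := pow_le_pow_right_of_le_one' hγ.le (by omega)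
        exact absurd (h3.trans h4) (not_le.2 hm)
      rw [map_eq_zero, Matrix.sub_apply, sub_eq_zero] at h2
      exact h2
    intro x hx
    rw [Set.mem_singleton_iff.1 (h1 hx)]
    exact hW

lemma exists_level {p : ℕ} (hp : p.Prime)
    (hF : ringChar (IsLocalRing.ResidueField (valuation F).integer) ≠ p) :
    ∃ (γ0 : ValueGroupWithZero F) (l : ℕ), γ0 ≠ 0 ∧ γ0 < 1 ∧ valuation F (l : F) ≤ γ0 ∧
      ∀ m, ¬ p ∣ l ^ m := by
  set l := ringChar (IsLocalRing.ResidueField (valuation F).integer) with hl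
  have hlp : l.Prime := CharP.char_is_prime (IsLocalRing.ResidueField (valuation F).integer) l
  obtain ⟨a, ha0, ha1⟩ := Valuation.IsNontrivial.exists_lt_one (v := valuation F)
  have hvl : valuation F (l : F) < 1 := by
    have h1 : IsLocalRing.residue (valuation F).integer (l : (valuation F).integer) = 0 := by
      rw [map_natCast, hl, ringChar.Nat.cast_ringChar]
    rw [IsLocalRing.residue_eq_zero_iff, IsLocalRing.mem_maximalIdeal, mem_nonunits_iff,
      Valuation.Integer.not_isUnit_iff_valuation_lt_one] at h1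
    simpa using h1
  refine ⟨max (valuation F a) (valuation F (l : F)), l, ?_, max_lt ha1 hvl, le_max_right _ _, ?_⟩
  · have : valuation F a ≠ 0 := by simpa using ha0
    exact ne_of_gt (lt_max_of_lt_left (zero_lt_iff.2 this))
  · intro m h
    exact hF ((Nat.prime_dvd_prime_iff_eq hp hlp).1 (hp.dvd_of_dvd_pow h)).symm

end Pool.Agent.P.MP_60b77b_nt
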