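import Pool.Agent.P.MP_60b77b_nt.Adm
import Pool.Agent.P.MP_60b77b_nt.Abstract
import Pool.Agent.P.MP_60b77b_nt.Congruence

namespace Pool.Agent.P.MP_60b77b_nt

open Finset ValuativeRel

variable {F : Type*} [Field F] [ValuativeRel F] {n : ℕ}

section small

variable {γ δ : ValueGroupWithZero F} {X Y : Matrix (Fin n) (Fin n) F}

theorem Small.sub (hX : Small γ X) (hY : Small γ Y) : Small γ (X - Y) :=
  fun i j => (valuation F).map_sub_le (hX i j) (hY i j)

theorem Small.smul (hX : Small γ X) (c : F) : Small (valuation F c * γ) (c • X) := by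
  intro a b
  rw [Matrix.smul_apply, smul_eq_mul, map_mul]
  exact mul_le_mul' le_rfl (hX a b)

theorem Small.int (hγ : γ ≤ 1) (hX : Small γ (X - 1)) : Small 1 X := by
  have h1 : Small 1 (1 : Matrix (Fin n) (Fin n) F) := fun i j => by
    rw [Matrix.one_apply]
    split_ifs <;> simp
  simpa using (hX.mono hγ).add h1

theorem Small.pow_diff (hγ : γ ≤ 1) (hX : Small γ (X - 1)) (hY : Small γ (Y - 1))
    (h : Small δ (Y - X)) (j : ℕ) :
    Small δ (Y ^ j - X ^ j) ∧ Small (γ * δ) (Y ^ j - X ^ j - j • (Y - X)) := by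
  induction j with
  | zero => simpa using ⟨small_zero _, small_zero _⟩
  | succ j ih =>
    have h1 : Small (γ * δ) ((Y ^ j - 1) * (Y - X) + (Y ^ j - X ^ j) * (X - 1)) :=
      ((hY.pow_sub_one hγ j).mul h).add ((ih.1.mul hX).mono (mul_comm _ _).le)
    have e1 : Y ^ (j + 1) - X ^ (j + 1) = (Y ^ j - 1) * (Y - X) + (Y ^ j - X ^ j) * (X - 1) +
        (Y ^ j - X ^ j) + (Y - X) := by
      rw [pow_succ, pow_succ]
      noncomm_ring
    have e2 : Y ^ (j + 1) - X ^ (j + 1) - (j + 1) • (Y - X) =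
        (Y ^ j - 1) * (Y - X) + (Y ^ j - X ^ j) * (X - 1) + (Y ^ j - X ^ j - j • (Y - X)) := by
      rw [e1, add_smul, one_smul]
      abel
    rw [e2, e1]
    exact ⟨((h1.mono (mul_le_of_le_one_left' hγ)).add ih.1).add h, h1.add ih.2⟩

theorem small_pow_iff {p : ℕ} (h0 : (p : F) ≠ 0) (hγ : valuation F (p : F) ≤ 1)
    (hX : Small (valuation F (p : F) ^ 2) (X - 1)) (hY : Small (valuation F (p : F) ^ 2) (Y - 1))
    (j : ℕ) : Small (valuation F (p : F) ^ j) (Y - X) ↔
      Small (valuation F (p : F) ^ (j + 1)) (Y ^ p - X ^ p) := by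
  have h2 := pow_le_one' hγ 2
  constructor
  · intro h
    rw [← sub_add_cancel (Y ^ p - X ^ p) (p • (Y - X))]
    refine ((Small.pow_diff h2 hX hY h p).2.mono ?_).add ((h.nsmul p).mono (pow_succ' _ _).ge)
    rw [← pow_add]
    exact pow_le_pow_right_of_le_one' hγ (by omega)
  · intro h
    have h3 : ∀ i, i ≤ j → Small (valuation F (p : F) ^ i) (Y - X) := fun i => by
      induction i with
      | zero => exact fun _ => by simpa using (hY.sub hX).mono h2
      | succ i ih =>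
        intro hi a b
        have h4 := (h.mono (pow_le_pow_right_of_le_one' hγ (show i + 1 + 1 ≤ j + 1 by omega))).sub
          ((Small.pow_diff h2 hX hY (ih (by omega)) p).2.mono (by
            rw [← pow_add, add_comm])) a b
        rw [sub_sub_cancel, Matrix.smul_apply, nsmul_eq_mul, map_mul, pow_succ'] at h4
        exact le_of_mul_le_mul_left h4 (zero_lt_iff.2 (by simpa using h0))
    exact h3 j le_rfl

theorem mem_cong_iff (hγ : γ ≤ 1) {a b : GL (Fin n) F} (ha : a ∈ cong n hγ 0)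
    (hb : b ∈ cong n hγ 0) (j : ℕ) : a⁻¹ * b ∈ cong n hγ j ↔
      Small (γ ^ (j + 1)) (b.val - a.val) := by
  have h1 := pow_le_one' hγ (0 + 1)
  constructor
  · intro h
    have := (ha.1.int h1).mul h.1
    rwa [one_mul, mul_sub, mul_one, ← Units.val_mul, mul_inv_cancel_left] at this
  · intro h
    constructor
    · have := (ha.2.int h1).mul h
      rwa [one_mul, mul_sub, Units.inv_mul, ← Units.val_mul] at this
    · have := (small_zero _).sub ((hb.2.int h1).mul h)
      rw [mul_inv_rev, inv_inv]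
      rwa [one_mul, mul_sub, Units.inv_mul, ← Units.val_mul, zero_sub, neg_sub] at this

theorem comm_mem_cong (hγ : γ ≤ 1) {a b : GL (Fin n) F} {i j : ℕ} (ha : a ∈ cong n hγ i)
    (hb : b ∈ cong n hγ j) : a * b * a⁻¹ * b⁻¹ ∈ cong n hγ (i + j + 1) := by
  have ha0 := cong_antitone hγ (Nat.zero_le i) ha
  have hb0 := cong_antitone hγ (Nat.zero_le j) hb
  have e : a * b * a⁻¹ * b⁻¹ = (b⁻¹ * a⁻¹)⁻¹ * (a⁻¹ * b⁻¹) := by
    rw [mul_inv_rev, inv_inv, inv_inv, ← mul_assoc]
  rw [e, mem_cong_iff hγ (mul_mem (inv_mem hb0) (inv_mem ha0))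
    (mul_mem (inv_mem ha0) (inv_mem hb0)), Units.val_mul, Units.val_mul]
  have := (ha.2.mul hb.2).sub ((hb.2.mul ha.2).mono (mul_comm _ _).le)
  rw [← pow_add, show i + 1 + (j + 1) = i + j + 1 + 1 by omega] at this
  refine (congrArg (Small _) ?_).mp this
  noncomm_ring

end small

variable [TopologicalSpace F] [IsNonarchimedeanLocalField F]

theorem exists_res {γ : ValueGroupWithZero F} (hγ : γ ≠ 0) :
    ∃ t : Finset (Matrix (Fin n) (Fin n) F), ∀ X, Small 1 X → ∃ Y ∈ t, Small γ (X - Y) := by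
  obtain ⟨t, -, ht⟩ := (isCompact_small (F := F) (n := n) 1).elim_nhds_subcover
    (fun Y => {X | Small γ (X - Y + 1 - 1)}) fun Y _ =>
      ((isOpen_small hγ).preimage ((continuous_id.sub continuous_const).add
        continuous_const)).mem_nhds (by simpa using small_zero γ)
  classical
  refine ⟨t.image (· - 1), fun X hX => ?_⟩
  have h1 := ht (show X + 1 ∈ {X | Small 1 (X - 1)} by simpa using hX)
  simp only [Set.mem_iUnion, Set.mem_ofPred_eq] at h1
  obtain ⟨Y, hY, h2⟩ := h1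
  refine ⟨Y - 1, mem_image_of_mem _ hY, (congrArg (Small _) ?_).mp h2⟩
  abel

theorem adm {p : ℕ} (hp : p.Prime) (hF : (p : F) ≠ 0) {k : Type*} [Field k] [CharP k p]
    {G : Type*} [Group G] [TopologicalSpace G] [IsTopologicalGroup G]
    (ι : G →* GL (Fin n) F) (hι : Topology.IsClosedEmbedding ι) (s : Monoid.End G)
    (hsc : Continuous s) (hs : ∀ g, s^[p] g = g)
    {V : Type*} [AddCommGroup V] [Module k V] (π : Representation k G V) (hπ : IsAdmissible π)
    (H : Subgroup G) (hH : ∀ g, s g = g → g ∈ H)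
    (A B : Module.End k V) (hA : ∀ h : H, Commute A ((π.comp H.subtype) h))
    (hB : ∀ h : H, Commute B ((π.comp H.subtype) h)) (hAB : ∀ v, A (B v) = 0)
    (ha : ∀ v, A v = 0 → ∀ g, ∑ i ∈ range p, π (s^[i] g) v ∈ LinearMap.range B) :
    IsAdmissible (kerModImage (π.comp H.subtype) A B hA hB) := by
  have : T2Space F := t2Space_field
  have : T2Space G := hι.isEmbedding.t2Space
  have hnh : ∀ {γ : ValueGroupWithZero F} (hγ : γ < 1), ∀ W ∈ nhds (1 : G),
      ∃ m, ∀ g, ι g ∈ cong n hγ.le m → g ∈ W := by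
    intro γ hγ W hW
    rw [hι.isInducing.nhds_eq_comap, map_one] at hW
    obtain ⟨W', hW1, hW2⟩ := hW
    obtain ⟨m, hm⟩ := exists_cong_subset hγ hW1
    exact ⟨m, fun g hg => hW2 (hm hg)⟩
  by_cases hc : ringChar (IsLocalRing.ResidueField (valuation F).integer) = p
  swap
  · obtain ⟨γ0, l, hγ0, hγ1, hl, hpl⟩ := exists_level (F := F) hp hc
    refine isAdmissible_kerModImage hp s hsc hs (fun W hW => ?_) ((cong n hγ1.le 0).comap ι)
      ((isOpen_cong hγ1.le hγ0 0).preimage hι.continuous)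
      (hι.isCompact_preimage (isCompact_cong hγ1.le 0)) (fun g hg W hW => ?_) π hπ H hH A B hA hB
      hAB ha
    · obtain ⟨m, hm⟩ := hnh hγ1 W hW
      exact ⟨(cong n hγ1.le m).comap ι, (isOpen_cong hγ1.le hγ0 m).preimage hι.continuous, hm⟩
    · obtain ⟨m, hm⟩ := hnh hγ1 W hW
      refine ⟨l ^ m, hpl m, hm _ ?_⟩
      rw [map_pow]
      exact pow_mem_cong hγ1.le hl hg m
  have hγ : valuation F (p : F) < 1 := by
    have h1 : IsLocalRing.residue (valuation F).integer (p : (valuation F).integer) = 0 := by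
      rw [map_natCast, ← hc, ringChar.Nat.cast_ringChar]
    rw [IsLocalRing.residue_eq_zero_iff, IsLocalRing.mem_maximalIdeal, mem_nonunits_iff,
      Valuation.Integer.not_isUnit_iff_valuation_lt_one] at h1
    simpa using h1
  have hγ0 : valuation F (p : F) ≠ 0 := by simpa using hF
  let L : ℕ → Subgroup G := fun m => stableCore s ((cong n hγ.le (m + 1)).comap ι)
  have hL : ∀ m g, g ∈ L m ↔ ∀ i : ℕ, ι (s^[i] g) ∈ cong n hγ.le (m + 1) :=
    fun m g => mem_stableCore
  have hmul : ∀ (i : ℕ) a b, s^[i] (a * b) = s^[i] a * s^[i] b := fun i => iterate_map_mul s i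
  have hinv : ∀ (i : ℕ) a, s^[i] a⁻¹ = (s^[i] a)⁻¹ := fun i => iterate_map_inv s i
  have hpow : ∀ (i : ℕ) a, s^[i] (a ^ p) = s^[i] a ^ p := fun i a => iterate_map_pow s i a p
  have h0 : ∀ {m a}, a ∈ L m → ∀ i : ℕ, ι (s^[i] a) ∈ cong n hγ.le 0 := fun ha i =>
    cong_antitone hγ.le (Nat.zero_le _) ((hL _ _).1 ha i)
  have anti : Antitone L := fun a b hab g hg => (hL _ _).2 fun i =>
    cong_antitone hγ.le (Nat.succ_le_succ hab) ((hL _ _).1 hg i)
  have opn : ∀ j, IsOpen (L j : Set G) := fun j =>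
    isOpen_stableCore hp.pos hsc hs ((isOpen_cong hγ.le hγ0 _).preimage hι.continuous)
  have pw : ∀ j, ∀ a ∈ L 0, ∀ b ∈ L 0, a⁻¹ * b ∈ L j ↔ (a ^ p)⁻¹ * b ^ p ∈ L (j + 1) := by
    intro j a ha b hb
    rw [hL, hL]
    refine forall_congr' fun i => ?_
    simp only [hmul, hinv, hpow, map_mul, map_inv, map_pow]
    rw [mem_cong_iff _ (h0 ha i) (h0 hb i), mem_cong_iff _ (pow_mem (h0 ha i) p)
      (pow_mem (h0 hb i) p), Units.val_pow_eq_pow_val, Units.val_pow_eq_pow_val]
    exact small_pow_iff hF hγ.le ((hL _ _).1 ha i).1 ((hL _ _).1 hb i).1 _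
  obtain ⟨t, ht⟩ := exists_res (n := n) hγ0
  obtain ⟨e, sj⟩ := exists_sj (R := Fin p → Set t) L anti pw
    (fun m g i => {Y | Small (valuation F (p : F)) (((p : F) ^ (m + 2))⁻¹ •
      ((ι (s^[i] g)).val - 1) - Y.val)}) (fun m a ha b hb hab => by
      refine (hL _ _).2 fun i => ?_
      rw [← Function.IsPeriodicPt.iterate_mod_apply (hs _) i, hmul, hinv, map_mul, map_inv,
        mem_cong_iff _ (h0 ha _) (h0 hb _)]
      have h1 := ((hL _ _).1 ha (i % p)).1.smul ((p : F) ^ (m + 2))⁻¹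
      rw [map_inv₀, map_pow, inv_mul_cancel₀ (pow_ne_zero _ hγ0)] at h1
      obtain ⟨Y, hY, h2⟩ := ht _ h1
      have h3 := (Set.ext_iff.1 (congrFun hab ⟨i % p, Nat.mod_lt _ hp.pos⟩) ⟨Y, hY⟩).1 h2
      have h4 := (Small.sub h3 h2).smul ((p : F) ^ (m + 2))
      rwa [sub_sub_sub_cancel_right, ← smul_sub, smul_inv_smul₀ (pow_ne_zero _ hF),
        sub_sub_sub_cancel_right, map_pow, ← pow_succ] at h4)
  refine isAdmissible_of_fil hp s hsc hs L anti opn (fun j => ?_) (fun W hW => ?_)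
    (fun j g hg => map_mem_stableCore hg) (fun i j a ha b hb => (hL _ _).2 fun l => ?_) pw e sj
    π hπ H hH A B hA hB hAB ha
  · exact (hι.isCompact_preimage (isCompact_cong hγ.le (j + 1))).of_isClosed_subset
      ((L j).isClosed_of_isOpen (opn j)) (stableCore_le _ _)
  · obtain ⟨m, hm⟩ := hnh hγ W hW
    exact ⟨m, fun g hg => hm g (cong_antitone hγ.le (Nat.le_succ m) ((hL _ _).1 hg 0))⟩
  · simp only [hmul, hinv, map_mul, map_inv]
    exact cong_antitone hγ.le (by omega) (comm_mem_cong hγ.le ((hL _ _).1 ha l) ((hL _ _).1 hb l))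

end Pool.Agent.P.MP_60b77b_nt
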