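import Pool.Agent.P.MP_60b77b_nt.Defs

namespace Pool.Agent.P.MP_60b77b_nt

/-- `1 - S` and `N = 1 + S + ... + S ^ (p - 1)` commute with `ρ`, and both Tate cohomology
representations `ker (1 - S) / im N` and `ker N / im (1 - S)` are admissible. -/
def TateAdm (p : ℕ) {k H V : Type*} [Field k] [Group H] [TopologicalSpace H] [AddCommGroup V]
    [Module k V] (ρ : Representation k H V) (S : Module.End k V) : Prop :=
  ∃ (h₀ : ∀ h, Commute (1 - S) (ρ h)) (h₁ : ∀ h, Commute (∑ i ∈ Finset.range p, S ^ i) (ρ h)),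
    IsAdmissible (kerModImage ρ (1 - S) (∑ i ∈ Finset.range p, S ^ i) h₀ h₁) ∧
    IsAdmissible (kerModImage ρ (∑ i ∈ Finset.range p, S ^ i) (1 - S) h₁ h₀)

end Pool.Agent.P.MP_60b77b_nt
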