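import Mathlib

namespace Pool.Agent.P.MP_60b77b_nt

/-- A uniform filtration that is stable under `s`. -/
structure Unif (p : ℕ) {Γ : Type*} [Group Γ] [TopologicalSpace Γ] (s : Γ →* Γ)
    (K : ℕ → Subgroup Γ) : Prop where
  top : ∀ g, g ∈ K 0
  anti : Antitone K
  opn : ∀ j, IsOpen (K j : Set Γ)
  nh : ∀ W ∈ nhds (1 : Γ), ∃ j, (K j : Set Γ) ⊆ W
  stab : ∀ j, ∀ g ∈ K j, s g ∈ K j
  comm : ∀ i j, ∀ a ∈ K i, ∀ b ∈ K j, a * b * a⁻¹ * b⁻¹ ∈ K (i + j + 2)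
  pw : ∀ j a b, a⁻¹ * b ∈ K j ↔ (a ^ p)⁻¹ * b ^ p ∈ K (j + 1)
  sj : ∀ j, ∀ g ∈ K (j + 1), ∃ a ∈ K j, (a ^ p)⁻¹ * g ∈ K (j + 2)

namespace Unif

variable {p : ℕ} {Γ : Type*} [Group Γ] [TopologicalSpace Γ] {s : Γ →* Γ} {K : ℕ → Subgroup Γ}
  (h : Unif p s K)
include h

theorem normal (j : ℕ) : (K j).Normal := ⟨fun b hb a => by
  have := (K j).mul_mem (h.anti (by omega) (h.comm 0 j a (h.top a) b hb)) hb
  simpa using this⟩

theorem pw_iter (m j : ℕ) (a b : Γ) :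
    a⁻¹ * b ∈ K j ↔ (a ^ p ^ m)⁻¹ * b ^ p ^ m ∈ K (j + m) := by
  induction m with
  | zero => simp
  | succ m ih => rw [ih, h.pw, ← pow_mul, ← pow_mul, ← pow_succ, add_assoc]

theorem pow_mem (m j : ℕ) {a : Γ} (ha : a ∈ K j) : a ^ p ^ m ∈ K (j + m) := by
  simpa using (h.pw_iter m j 1 a).1 (by simpa using ha)

theorem stab_iter (i j : ℕ) {g : Γ} (hg : g ∈ K j) : s^[i] g ∈ K j := by
  induction i with
  | zero => exact hg
  | succ i ih => rw [Function.iterate_succ_apply']; exact h.stab j _ ih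

theorem root1 (j t : ℕ) {g : Γ} (hg : g ∈ K (j + 1)) :
    ∃ a ∈ K j, (a ^ p)⁻¹ * g ∈ K (j + 1 + t) := by
  induction t with
  | zero => exact ⟨1, one_mem _, by simpa using hg⟩
  | succ t ih =>
    obtain ⟨a, ha, h1⟩ := ih
    obtain ⟨u, hu, h2⟩ := h.sj (j + t) _ (by rwa [add_right_comm] at h1)
    refine ⟨a * u, (K j).mul_mem ha (h.anti (by omega) hu), ?_⟩
    have := h.normal (j + t + 2)
    have e : j + 1 + (t + 1) = j + t + 2 := by omega
    have hc : Commute (QuotientGroup.mk' (K (j + t + 2)) a) (QuotientGroup.mk' _ u) := by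
      rw [← commutatorElement_eq_one_iff_commute, ← map_commutatorElement, QuotientGroup.mk'_apply,
        QuotientGroup.eq_one_iff]
      simpa [commutatorElement_def] using h.comm 0 (j + t) a (h.top a) u hu
    rw [e]
    rw [← QuotientGroup.eq_one_iff, ← QuotientGroup.mk'_apply] at h2 ⊢
    rw [map_mul, map_inv, map_pow, map_mul, hc.mul_pow, mul_inv_rev, mul_assoc]
    simpa using h2

theorem root (m t : ℕ) {g : Γ} (hg : g ∈ K m) : ∃ v : Γ, (v ^ p ^ m)⁻¹ * g ∈ K (m + t) := by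
  induction m generalizing g with
  | zero => exact ⟨g, by simp⟩
  | succ m ih =>
    obtain ⟨a, ha, h1⟩ := h.root1 m t hg
    obtain ⟨v, hv⟩ := ih ha
    refine ⟨v, ?_⟩
    have h2 := (h.pw _ _ _).1 hv
    rw [← pow_mul, ← pow_succ, add_right_comm] at h2
    simpa [mul_assoc] using (K _).mul_mem h2 h1

variable [IsTopologicalGroup Γ] [CompactSpace Γ] [T2Space Γ]

theorem near_fixed (hsc : Continuous s) :
    ∃ m, ∀ v : Γ, v⁻¹ * s v ∈ K m → ∃ c : Γ, s c = c ∧ c⁻¹ * v ∈ K 2 := by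
  have ho : IsOpen {v : Γ | ∃ c : Γ, s c = c ∧ c⁻¹ * v ∈ K 2} := by
    rw [Set.ofPred_exists]
    refine isOpen_iUnion fun c => ?_
    by_cases hc : s c = c
    · simp only [hc, true_and]
      exact (h.opn 2).preimage (continuous_const.mul continuous_id)
    · simp [hc]
  have hcl : ∀ m, IsClosed {v : Γ | v⁻¹ * s v ∈ K m} := fun m =>
    ((K m).isClosed_of_isOpen (h.opn m)).preimage (continuous_inv.mul hsc)
  refine exists_subset_nhds_of_compactSpace (V := fun m => {v : Γ | v⁻¹ * s v ∈ K m})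
    (directed_of_isDirected_le fun a b hab v hv => h.anti hab hv) hcl
    (U := {v : Γ | ∃ c : Γ, s c = c ∧ c⁻¹ * v ∈ K 2}) fun v hv => ho.mem_nhds ?_
  refine ⟨v, ?_, by simp⟩
  by_contra hne
  have h1 : v⁻¹ * s v ≠ 1 := fun e => hne (inv_mul_eq_one.1 e).symm
  obtain ⟨j, hj⟩ := h.nh _ (isOpen_compl_singleton.mem_nhds h1.symm)
  exact hj (Set.mem_iInter.1 hv j) rfl

theorem exists_c (hsc : Continuous s) : ∃ m, ∀ w ∈ K m, w⁻¹ * s w ∈ K (m + m + 2) →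
    ∃ c ∈ K m, s c = c ∧ c⁻¹ * w ∈ K (m + 2) := by
  obtain ⟨m, hm⟩ := h.near_fixed hsc
  refine ⟨m, fun w hw h1 => ?_⟩
  obtain ⟨v, hv⟩ := h.root m (m + 2) hw
  have h2 := h.stab _ _ hv
  rw [map_mul, map_inv, map_pow] at h2
  have h3 : (v ^ p ^ m)⁻¹ * s v ^ p ^ m ∈ K (m + 2 + m) := by
    have := (K _).mul_mem ((K _).mul_mem hv h1) ((K _).inv_mem h2)
    rw [add_comm]
    simpa [mul_assoc] using this
  obtain ⟨c, hc, h4⟩ := hm v (h.anti (by omega) ((h.pw_iter m _ _ _).2 h3))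
  refine ⟨c ^ p ^ m, by simpa using h.pow_mem m 0 (h.top c), by rw [map_pow, hc], ?_⟩
  have h5 := (h.pw_iter m _ _ _).1 h4
  rw [add_comm] at h5
  simpa [mul_assoc] using (K _).mul_mem h5 (h.anti (by omega) hv)

omit [T2Space Γ] in
theorem reps (j : ℕ) : ∃ Y : Finset Γ, (∀ y ∈ Y, y ∈ K j) ∧
    ∀ g ∈ K j, ∃ y ∈ Y, y⁻¹ * g ∈ K (j + 1) := by
  classical
  have : Finite (Γ ⧸ K (j + 1)) := Subgroup.quotient_finite_of_isOpen _ (h.opn _)
  have := Fintype.ofFinite (Γ ⧸ K (j + 1))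
  refine ⟨(Finset.univ.image fun q : Γ ⧸ K (j + 1) => q.out).filter (· ∈ K j),
    fun y hy => (Finset.mem_filter.1 hy).2, fun g hg => ?_⟩
  have h1 : (g : Γ ⧸ K (j + 1)).out⁻¹ * g ∈ K (j + 1) :=
    QuotientGroup.eq.1 (QuotientGroup.out_eq' _)
  refine ⟨_, Finset.mem_filter.2 ⟨Finset.mem_image_of_mem _ (Finset.mem_univ _), ?_⟩, h1⟩
  simpa using (K j).mul_mem hg ((K j).inv_mem (h.anti (Nat.le_succ j) h1))

end Unif

end Pool.Agent.P.MP_60b77b_nt
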