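import Pool.Agent.P.MP_60b77b_nt.Melk
import Pool.Agent.P.MP_60b77b_nt.Grp

namespace Pool.Agent.P.MP_60b77b_nt

variable {k Γ V : Type*} [Field k] [Group Γ] [AddCommGroup V] [Module k V]
  (π : Representation k Γ V)

/-- The socle filtration. -/
def Wf : ℕ → Submodule k V
  | 0 => ⊥
  | j + 1 => ⨅ g, (Wf j).comap (1 - π g)

theorem mem_Wf {j : ℕ} {v : V} : v ∈ Wf π (j + 1) ↔ ∀ g, (1 - π g) v ∈ Wf π j := by
  simp only [Wf, Submodule.mem_iInf, Submodule.mem_comap]

theorem Wf_mono : Monotone (Wf π) := monotone_nat_of_le_succ fun j => by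
  induction j with
  | zero => exact bot_le
  | succ j ih => exact fun v hv => (mem_Wf π).2 fun g => ih ((mem_Wf π).1 hv g)

/-- Operators that lower the filtration by `r`. -/
def Dg (r : ℕ) : Submodule k (Module.End k V) where
  carrier := {a | ∀ j, ∀ v ∈ Wf π (j + r), a v ∈ Wf π j}
  add_mem' := fun ha hb j v hv => add_mem (ha j v hv) (hb j v hv)
  zero_mem' := fun _ _ _ => zero_mem _
  smul_mem' := fun c _ ha j v hv => Submodule.smul_mem _ c (ha j v hv)

variable {π}

theorem Dg_mul {r t : ℕ} {a b : Module.End k V} (ha : a ∈ Dg π r) (hb : b ∈ Dg π t) :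
    a * b ∈ Dg π (r + t) := fun j v hv => ha j _ (hb (j + r) v (by rwa [add_assoc]))

theorem Dg_anti {r t : ℕ} (h : r ≤ t) {a : Module.End k V} (ha : a ∈ Dg π t) : a ∈ Dg π r :=
  fun j v hv => ha j v (Wf_mono π (by omega) hv)

theorem Dg_one : (1 : Module.End k V) ∈ Dg π 0 := fun _ _ hv => hv

theorem Dg_sub (g : Γ) : 1 - π g ∈ Dg π 1 := fun _ _ hv => (mem_Wf π).1 hv g

theorem Dg_pi (g : Γ) : π g ∈ Dg π 0 := by
  simpa using sub_mem (Dg_one (π := π)) (Dg_anti (Nat.zero_le 1) (Dg_sub g))

theorem Dg_pow {r : ℕ} {a : Module.End k V} (ha : a ∈ Dg π r) (n : ℕ) : a ^ n ∈ Dg π (r * n) := by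
  induction n with
  | zero => exact Dg_one
  | succ n ih => rw [pow_succ, Nat.mul_succ]; exact Dg_mul ih ha

theorem one_sub_mul (a b : Γ) : 1 - π (a * b) = (1 - π a) + π a * (1 - π b) := by
  rw [map_mul]
  noncomm_ring

theorem one_sub_pow {p : ℕ} (hp : p.Prime) [CharP k p] (g : Γ) (m : ℕ) :
    1 - π (g ^ p ^ m) = (1 - π g) ^ p ^ m := by
  have : Fact p.Prime := ⟨hp⟩
  rcases subsingleton_or_nontrivial (Module.End k V) with h0 | h0
  · exact Subsingleton.elim _ _
  · have : CharP (Module.End k V) p :=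
      (CharP.charP_iff_prime_eq_zero hp).2 (by
        rw [← map_natCast (algebraMap k (Module.End k V)), CharP.cast_eq_zero, map_zero])
    rw [sub_pow_char_pow_of_commute _ _ (Commute.one_left _), one_pow, map_pow]

section unif

variable {p : ℕ} (hp : p.Prime) [CharP k p] [TopologicalSpace Γ] {s : Γ →* Γ}
  {K : ℕ → Subgroup Γ} (h : Unif p s K) (hsm : ∀ v, ∃ j, ∀ g ∈ K j, π g v = v)
include hp h hsm

theorem Dg_deep (m : ℕ) : ∀ g ∈ K m, 1 - π g ∈ Dg π (p ^ m) := by
  induction m with
  | zero => exact fun g _ => by simpa using Dg_sub g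
  | succ m ih =>
    intro g hg j v hv
    obtain ⟨t, ht⟩ := hsm v
    have key : ∀ i, ∀ g ∈ K (m + 1 + (t - i)), (1 - π g) v ∈ Wf π j := by
      intro i
      induction i with
      | zero =>
        intro g hg
        rw [LinearMap.sub_apply, ht g (h.anti (by omega) hg), Module.End.one_apply, sub_self]
        exact zero_mem _
      | succ i ih2 =>
        intro g hg
        by_cases hi : i < t
        · obtain ⟨a, ha, h1⟩ := h.sj (m + (t - (i + 1))) g (by rwa [add_right_comm] at hg)
          have e : g = a ^ p ^ 1 * ((a ^ p)⁻¹ * g) := by simp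
          rw [e, one_sub_mul, LinearMap.add_apply, Module.End.mul_apply, one_sub_pow hp, pow_one]
          refine add_mem (Dg_pow (ih a (h.anti (by omega) ha)) p j v (by rwa [← pow_succ]))
            (Dg_pi _ j _ (ih2 _ (h.anti (by omega) h1)))
        · exact ih2 g (h.anti (by omega) hg)
    exact key t g (by simpa using hg)

theorem exhaust [IsTopologicalGroup Γ] [CompactSpace Γ] (v : V) : ∃ j, v ∈ Wf π j := by
  classical
  let U : Submodule k V := ⨆ j, Wf π j
  have hU : ∀ v, v ∈ U ↔ ∃ j, v ∈ Wf π j := fun v =>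
    Submodule.mem_iSup_of_directed _ (Wf_mono π).directed_le
  have hst : ∀ g, ∀ v ∈ U, π g v ∈ U := fun g v hv => by
    obtain ⟨j, hj⟩ := (hU v).1 hv
    exact (hU _).2 ⟨j, Dg_pi g j v hj⟩
  have hs1 : ∀ g, ∀ v ∈ U, (1 - π g) v ∈ U := fun g v hv => sub_mem hv (hst g v hv)
  have key : ∀ t v, (∀ g ∈ K t, (1 - π g) v ∈ U) → v ∈ U := by
    intro t
    induction t with
    | zero =>
      intro v hv
      obtain ⟨t, ht⟩ := hsm v
      have : Finite (Γ ⧸ K t) := Subgroup.quotient_finite_of_isOpen _ (h.opn _)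
      choose f hf using fun q : Γ ⧸ K t => (hU _).1 (hv q.out (h.top _))
      obtain ⟨N, hN⟩ := (Set.finite_range f).bddAbove
      refine (hU v).2 ⟨N + 1, (mem_Wf π).2 fun g => ?_⟩
      have h1 : (g : Γ ⧸ K t).out⁻¹ * g ∈ K t := QuotientGroup.eq.1 (QuotientGroup.out_eq' _)
      have h2 : π g v = π (g : Γ ⧸ K t).out v := by
        conv_rhs => rw [← ht _ h1, ← Module.End.mul_apply, ← map_mul, mul_inv_cancel_left]
      rw [LinearMap.sub_apply, h2]
      exact Wf_mono π (hN ⟨_, rfl⟩) (hf _)
    | succ t ih =>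
      obtain ⟨Y, hY, hY'⟩ := h.reps t
      have hM : ∀ a v, (∀ g ∈ K (t + 1), (1 - π g) v ∈ U) →
          ∀ g ∈ K (t + 1), (1 - π g) ((1 - π a) v) ∈ U := by
        intro a v hv g hg
        have e : (1 - π g) * (1 - π a) = (1 - π g) - π a * (1 - π (a⁻¹ * g * a⁻¹⁻¹)) := by
          rw [mul_sub (π a), ← map_mul, inv_inv, ← mul_assoc, mul_inv_cancel_left, map_mul]
          noncomm_ring
        rw [← Module.End.mul_apply, e]
        exact sub_mem (hv g hg) (hst a _ (hv _ ((h.normal _).conj_mem g hg a⁻¹)))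
      have hC : ∀ a ∈ K t, ∀ y ∈ K t, ∀ v, (∀ g ∈ K (t + 1), (1 - π g) v ∈ U) →
          (1 - π y) v ∈ U → (1 - π y) ((1 - π a) v) ∈ U := by
        intro a ha y hy v hv h1
        have e : (1 - π y) * (1 - π a) = (1 - π a) * (1 - π y) +
            π (y * a) * (1 - π (a⁻¹ * y⁻¹ * a⁻¹⁻¹ * y⁻¹⁻¹)) := by
          rw [mul_sub (π (y * a)), ← map_mul]
          simp only [inv_inv, mul_assoc, mul_inv_cancel_left, map_mul]
          noncomm_ring
        rw [← Module.End.mul_apply, e]
        exact add_mem (hs1 a _ h1) (hst _ _ (hv _ (h.anti (by omega)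
          (h.comm t t _ (inv_mem ha) _ (inv_mem hy)))))
      have k2 : ∀ T : Finset Γ, T ⊆ Y → ∀ v, (∀ g ∈ K (t + 1), (1 - π g) v ∈ U) →
          (∀ y ∈ Y \ T, (1 - π y) v ∈ U) → v ∈ U := by
        intro T
        induction T using Finset.induction_on with
        | empty =>
          intro _ v h1 h2
          refine ih v fun g hg => ?_
          obtain ⟨y, hy, h3⟩ := hY' g hg
          rw [← mul_inv_cancel_left y g, one_sub_mul]
          exact add_mem (h2 y (by simpa using hy)) (hst _ _ (h1 _ h3))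
        | insert a T ha ih2 =>
          intro hT
          have haK : a ∈ K t := hY a (hT (Finset.mem_insert_self _ _))
          have k3 : ∀ (i : ℕ) (v : V), (∀ g ∈ K (t + 1), (1 - π g) v ∈ U) →
              (∀ y ∈ Y \ insert a T, (1 - π y) v ∈ U) →
              ((1 - π a : Module.End k V) ^ i) v ∈ U → v ∈ U := by
            intro i
            induction i with
            | zero => exact fun v _ _ h => h
            | succ i ih3 =>
              intro v h1 h2 h3
              have h4 := ih3 ((1 - π a) v) (hM a v h1)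
                (fun y hy => hC a haK y (hY y (Finset.mem_sdiff.1 hy).1) v h1 (h2 y hy))
                (by rwa [← Module.End.mul_apply, ← pow_succ])
              refine ih2 ((Finset.subset_insert _ _).trans hT) v h1 fun y hy => ?_
              by_cases e : y = a
              · rwa [e]
              · refine h2 y ?_
                simp only [Finset.mem_sdiff, Finset.mem_insert] at hy ⊢
                tauto
          intro v h1 h2
          refine k3 (p ^ 1) v h1 h2 ?_
          rw [← one_sub_pow hp]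
          exact h1 _ (h.pow_mem 1 t haK)
      exact fun v hv => k2 Y subset_rfl v hv (by simp)
  obtain ⟨t, ht⟩ := hsm v
  refine (hU v).1 (key t v fun g hg => ?_)
  rw [LinearMap.sub_apply, ht g hg, Module.End.one_apply, sub_self]
  exact zero_mem _

end unif

end Pool.Agent.P.MP_60b77b_nt
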