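import Pool.Agent.P.MP_60b77b_nt.Norm

namespace Pool.Agent.P.MP_60b77b_nt

open Finset

variable {k Γ V : Type*} [Field k] [Group Γ] [AddCommGroup V] [Module k V]
  {π : Representation k Γ V} {p : ℕ} (hp : p.Prime) [CharP k p] [TopologicalSpace Γ]
  {s : Γ →* Γ} {K : ℕ → Subgroup Γ} (h : Unif p s K) (hsm : ∀ v, ∃ j, ∀ g ∈ K j, π g v = v)
include hp h hsm

theorem Xs_comm (a b : Γ) : Commute (Xs π a) (Xs π b) :=
  (((Xs_sym a).mul (Xs_sym b)).congr (by
    have e : (1 - π a) * (1 - π b) - (1 - π b) * (1 - π a) =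
        -(π (b * a) * (1 - π (a⁻¹ * b⁻¹ * a⁻¹⁻¹ * b⁻¹⁻¹))) := by
      rw [mul_sub (π (b * a)), ← map_mul]
      simp only [inv_inv, mul_assoc, mul_inv_cancel_left, map_mul]
      noncomm_ring
    rw [e]
    refine neg_mem (Dg_anti ?_ (Dg_mul (Dg_pi _) (Dg_deep hp h hsm 2 _
      (h.comm 0 0 _ (h.top _) _ (h.top _)))))
    have := hp.two_le
    nlinarith)).unique ((Xs_sym b).mul (Xs_sym a))

theorem Xs_zero {g : Γ} (hg : g ∈ K 1) : Xs π g = 0 := by
  have h1 : IsSym π 1 0 (Xs π g) := (Xs_sym g).congr (by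
    rw [sub_zero]
    exact Dg_anti (by simpa using hp.two_le) (Dg_deep hp h hsm 1 g hg))
  have h2 := h1.add h1
  rw [add_zero] at h2
  exact add_eq_left.1 (h2.unique h1)

theorem exists_lift (hs : ∀ g, s^[p] g = g) (J : Submodule k (Module.End k V))
    (ha : ∀ g, ∑ i ∈ range p, π (s^[i] g) ∈ J) (hb : ∀ c, s c = c → 1 - π c ∈ J) {m : ℕ}
    (hm : ∀ w ∈ K m, w⁻¹ * s w ∈ K (m + m + 2) → ∃ c ∈ K m, s c = c ∧ c⁻¹ * w ∈ K (m + 2)) :
    ∃ l : List ℕ, 0 < l.length ∧ ∀ y, ∃ z ∈ J,
      IsSym π (p ^ m * l.length) z (l.map fun i => Xs π (s^[i] y) ^ p ^ m).prod := by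
  classical
  obtain ⟨n, rfl⟩ : ∃ n, p = n + 1 := ⟨p - 1, by have := hp.pos; omega⟩
  let L : List (ZMod (n + 1)) := (univ : Finset (ZMod (n + 1))).toList
  have hL : (L.map ZMod.val).length = n + 1 := by
    rw [List.length_map, length_toList, card_univ, ZMod.card]
  refine ⟨L.map ZMod.val, by omega, fun y => ?_⟩
  have h1 : ∀ l : List ℕ, IsSym π ((n + 1) ^ m * l.length)
      (l.map fun i => 1 - π (s^[i] y ^ (n + 1) ^ m)).prod
      (l.map fun i => Xs π (s^[i] y) ^ (n + 1) ^ m).prod := fun l => by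
    induction l with
    | nil => exact IsSym.one
    | cons i l ih =>
      have := ((Xs_sym (π := π) (s^[i] y)).pow ((n + 1) ^ m)).mul ih
      rwa [← one_sub_pow hp, one_mul, add_comm] at this
  let M := J ⊔ Dg π ((n + 1) ^ (m + 2))
  let N := (K (m + m + 2)).subgroupOf (K m)
  have := h.normal (m + m + 2)
  let : CommGroup (K m ⧸ N) :=
    { (inferInstance : Group (K m ⧸ N)) with
      mul_comm := fun a b => by
        obtain ⟨a, rfl⟩ := QuotientGroup.mk_surjective a
        obtain ⟨b, rfl⟩ := QuotientGroup.mk_surjective b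
        rw [← QuotientGroup.mk_mul, ← QuotientGroup.mk_mul, QuotientGroup.eq]
        have := h.comm m m _ (inv_mem b.2) _ (inv_mem a.2)
        show (((a * b)⁻¹ * (b * a) : K m) : Γ) ∈ K (m + m + 2)
        simpa [mul_assoc] using this }
  have hq : ∀ a b : Γ, a⁻¹ * b ∈ K (m + 2) → M.mkQ (π a) = M.mkQ (π b) := fun a b hab => by
    rw [Submodule.mkQ_apply, Submodule.mkQ_apply, Submodule.Quotient.eq]
    have e : π a - π b = π a * (1 - π (a⁻¹ * b)) := by
      rw [mul_sub, ← map_mul, mul_inv_cancel_left, mul_one]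
    rw [e]
    exact Submodule.mem_sup_right (by simpa using Dg_mul (Dg_pi a) (Dg_deep hp h hsm _ _ hab))
  let ψ : K m ⧸ N → Module.End k V ⧸ M := fun x => M.mkQ (π x.out)
  have hψ : ∀ g : K m, ψ g = M.mkQ (π g) := fun g =>
    hq _ _ (h.anti (by omega) (show _ ∈ K (m + m + 2) from
      (QuotientGroup.eq (s := N)).1 (QuotientGroup.out_eq' (g : K m ⧸ N))))
  let s' : K m →* K m := (s.comp (K m).subtype).codRestrict _ fun g => h.stab m _ g.2
  let t : K m ⧸ N →* K m ⧸ N := QuotientGroup.map N N s' fun g hg => h.stab _ _ hg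
  have ht : ∀ (i : ℕ) (g : K m), t^[i] g = ((⟨s^[i] g, h.stab_iter i m g.2⟩ : K m) : K m ⧸ N) :=
    fun i g => by
    induction i with
    | zero => rfl
    | succ i ih =>
      rw [Function.iterate_succ_apply', ih]
      simp only [Function.iterate_succ_apply']
      rfl
  let Y : ZMod (n + 1) → K m := fun i =>
    ⟨s^[i.val] y ^ (n + 1) ^ m, by simpa using h.pow_mem m 0 (h.top _)⟩
  have hY : ∀ i, t (Y i) = Y (i + 1) := fun i => congrArg QuotientGroup.mk (Subtype.ext (by
    have : Fact (n + 1).Prime := ⟨hp⟩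
    show s (s^[i.val] y ^ _) = s^[(i + 1).val] y ^ _
    rw [map_pow, ZMod.val_add, ZMod.val_one, Function.IsPeriodicPt.iterate_mod_apply (hs y),
      Function.iterate_succ_apply']))
  have h2 : ∀ l : List (ZMod (n + 1)), l.Nodup → ∀ x : K m,
      M.mkQ (π x * (l.map fun i => 1 - π (Y i)).prod) =
      ∑ I ∈ l.toFinset.powerset, (-1 : k) ^ I.card • ψ (x * ∏ i ∈ I, (Y i : K m ⧸ N)) := by
    intro l
    induction l with
    | nil => exact fun _ x => by simp [hψ]
    | cons i l ih =>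
      intro hl x
      have hi : i ∉ l.toFinset := by simpa using (List.nodup_cons.1 hl).1
      rw [List.toFinset_cons, sum_powerset_insert hi, List.map_cons, List.prod_cons, ← mul_assoc,
        mul_sub, mul_one, sub_mul, map_sub, ← map_mul, ← Subgroup.coe_mul,
        ih (List.nodup_cons.1 hl).2, ih (List.nodup_cons.1 hl).2, sub_eq_add_neg,
        ← sum_neg_distrib]
      refine congrArg _ (sum_congr rfl fun I hI => ?_)
      have hiI : i ∉ I := fun e => hi (mem_powerset.1 hI e)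
      rw [card_insert_of_notMem hiI, prod_insert hiI, pow_succ, mul_neg_one, neg_smul,
        QuotientGroup.mk_mul, mul_assoc]
  have h3 := h2 L (nodup_toList _) 1
  rw [toList_toFinset] at h3
  simp only [QuotientGroup.mk_one, one_mul, OneMemClass.coe_one, map_one] at h3
  rw [sum_norm hp t (fun i => (Y i : K m ⧸ N)) hY ψ (fun a => by
    obtain ⟨a, rfl⟩ := QuotientGroup.mk_surjective a
    simp only [ht, hψ]
    rw [← map_sum, Submodule.mkQ_apply, Submodule.Quotient.mk_eq_zero]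
    exact Submodule.mem_sup_left (ha _))] at h3
  obtain ⟨w, hw⟩ := QuotientGroup.mk_surjective (∏ i, (Y i : K m ⧸ N))
  have h4 : (w : K m ⧸ N) = t w := by
    rw [hw, map_prod]
    simp only [hY]
    exact (Equiv.prod_comp (Equiv.addRight 1) fun i => (Y i : K m ⧸ N)).symm
  obtain ⟨c, -, hc, hcw⟩ := hm w w.2 ((QuotientGroup.eq (s := N)).1 h4)
  rw [← hw, hψ, ← hq _ _ hcw, ← QuotientGroup.mk_one, hψ, ← map_sub, OneMemClass.coe_one, map_one,
    Submodule.mkQ_apply, Submodule.mkQ_apply, Submodule.Quotient.eq] at h3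
  obtain ⟨z, hz, d, hd, e⟩ := Submodule.mem_sup.1 h3
  refine ⟨z + (1 - π c), add_mem hz (hb c hc), (h1 _).congr ?_⟩
  rw [List.map_map, hL]
  have e2 : (L.map fun i => 1 - π (Y i)).prod - (z + (1 - π c)) = d := by
    rw [add_comm z, ← sub_sub, ← e, add_sub_cancel_left]
  refine Dg_anti ?_ (e2 ▸ hd)
  have := Nat.pow_lt_pow_right hp.one_lt (Nat.lt_succ_self (m + 1))
  rwa [pow_succ] at this

theorem key [IsTopologicalGroup Γ] [CompactSpace Γ] [T2Space Γ] (hsc : Continuous s)
    (hs : ∀ g, s^[p] g = g) (hf : FiniteDimensional k π.invariants) (P Q : Submodule k V)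
    (hQ : Q ≤ P) (ha : ∀ g, ∀ v ∈ P, ∑ i ∈ range p, π (s^[i] g) v ∈ Q)
    (hb : ∀ c, s c = c → ∀ v ∈ P, (1 - π c) v ∈ Q) : FiniteDimensional k (P.map Q.mkQ) := by
  have : FiniteDimensional k (Wf π 1) :=
    Submodule.finiteDimensional_of_le (S₂ := π.invariants) fun v hv g =>
      (sub_eq_zero.1 ((mem_Wf π).1 hv g)).symm
  let J : Submodule k (Module.End k V) :=
    { carrier := {a | ∀ v ∈ P, a v ∈ Q}
      add_mem' := fun ha hb v hv => add_mem (ha v hv) (hb v hv)
      zero_mem' := fun _ _ => zero_mem _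
      smul_mem' := fun c _ ha v hv => Submodule.smul_mem _ c (ha v hv) }
  obtain ⟨m, hm⟩ := h.exists_c hsc
  obtain ⟨l, hl, hz⟩ := exists_lift hp h hsm hs J
    (fun g v hv => by rw [LinearMap.sum_apply]; exact ha g v hv) hb hm
  choose z hz1 hz2 using hz
  obtain ⟨T, -, hT⟩ := h.reps 0
  have hc := Xs_comm hp h hsm
  have h1 := dcc_main (exhaust hp h hsm) T (fun _ => p ^ m * l.length)
    (fun _ => Nat.mul_pos (pow_pos hp.pos _) hl) z _ hz2
    (fun a b => Commute.list_prod_left _ _ fun x hx => Commute.list_prod_right _ _ fun y hy => by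
      obtain ⟨i, -, rfl⟩ := List.mem_map.1 hx
      obtain ⟨j, -, rfl⟩ := List.mem_map.1 hy
      exact (hc _ _).pow_pow _ _)
    (fin_norms hp s hs (Xs π) Xs_mul hc T (fun y => by
      obtain ⟨t, ht, e⟩ := hT y (h.top y)
      refine ⟨t, ht, fun i => ?_⟩
      rw [← mul_inv_cancel_left t y, iterate_map_mul, Xs_mul,
        Xs_zero hp h hsm (h.stab_iter i _ e), add_zero]) l _ fin_socle)
  have h2 : IsArtinian k (P.map Q.mkQ) := by
    rw [← monotone_stabilizes_iff_artinian]
    intro f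
    let L : ℕ → Submodule k V := fun n =>
      ((OrderDual.ofDual (f n)).map (P.map Q.mkQ).subtype).comap Q.mkQ
    obtain ⟨N, hN⟩ := h1 L
      (fun a b hab => Submodule.comap_mono (Submodule.map_mono (f.monotone hab)))
      (fun n y v hv => by
        obtain ⟨⟨x, u, hu, rfl⟩, -, e⟩ := hv
        have h3 : v ∈ P := by
          have := (Submodule.Quotient.eq Q).1 e
          simpa using sub_mem hu (hQ this)
        refine Submodule.mem_comap.2 ?_
        rw [Submodule.mkQ_apply, (Submodule.Quotient.mk_eq_zero Q).2 (hz1 y v h3)]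
        exact zero_mem _)
    exact ⟨N, fun n hn => (Submodule.map_injective_of_injective (Submodule.injective_subtype _)
      (Submodule.comap_injective_of_surjective Q.mkQ_surjective (hN n hn))).symm⟩
  exact ((IsSemisimpleModule.finite_tfae (R := k) (M := P.map Q.mkQ)).out 2 0).1 h2

end Pool.Agent.P.MP_60b77b_nt
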