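import Pool.Agent.P.MP_60b77b_nt.Conc

namespace Pool.Agent.P.MP_60b77b_nt

open Finset ValuativeRel

theorem main2 (p : ℕ) (hp : p.Prime)
    (F : Type*) [Field F] [ValuativeRel F] [TopologicalSpace F] [IsNonarchimedeanLocalField F]
    (hF : (p : F) ≠ 0)
    (k : Type*) [Field k] [CharP k p]
    (G : Type*) [Group G] [TopologicalSpace G] [IsTopologicalGroup G]
    (n : ℕ) (ι : G →* GL (Fin n) F) (hι : Topology.IsClosedEmbedding ι)
    (σ : MulAut G) (hσc : Continuous σ) (hσp : σ ^ p = 1)
    (V : Type*) [AddCommGroup V] [Module k V] (π : Representation k G V) (hπ : IsAdmissible π)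
    (S : Module.End k V) (hS : ∀ g, S * π g = π (σ g) * S) (hSp : S ^ p = 1) :
    ∃ (h₀ : ∀ h : σ.toMonoidHom.eqLocus (MonoidHom.id G),
        Commute (1 - S) (π.comp (σ.toMonoidHom.eqLocus (MonoidHom.id G)).subtype h))
      (h₁ : ∀ h : σ.toMonoidHom.eqLocus (MonoidHom.id G),
        Commute (∑ i ∈ Finset.range p, S ^ i)
          (π.comp (σ.toMonoidHom.eqLocus (MonoidHom.id G)).subtype h)),
      IsAdmissible (kerModImage (π.comp (σ.toMonoidHom.eqLocus (MonoidHom.id G)).subtype)
        (1 - S) (∑ i ∈ Finset.range p, S ^ i) h₀ h₁) ∧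
      IsAdmissible (kerModImage (π.comp (σ.toMonoidHom.eqLocus (MonoidHom.id G)).subtype)
        (∑ i ∈ Finset.range p, S ^ i) (1 - S) h₁ h₀) := by
  set H := σ.toMonoidHom.eqLocus (MonoidHom.id G) with hH
  have hc : ∀ h : H, Commute S (π.comp H.subtype h) := by
    intro h
    have h1 : σ h = h := h.2
    have h2 := hS h
    rw [h1] at h2
    exact h2
  have h₀ : ∀ h : H, Commute (1 - S) (π.comp H.subtype h) :=
    fun h => (Commute.one_left _).sub_left (hc h)
  have h₁ : ∀ h : H, Commute (∑ i ∈ Finset.range p, S ^ i) (π.comp H.subtype h) :=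
    fun h => Commute.sum_left _ _ _ fun i _ => (hc h).pow_left i
  let s : Monoid.End G := σ.toMonoidHom
  have hsσ : (s : G → G) = σ := rfl
  have hsc : Continuous s := hσc
  have hs : ∀ g, s^[p] g = g := by
    intro g
    have h1 : ∀ i : ℕ, (σ ^ i) g = (σ : G → G)^[i] g := by
      intro i
      induction i with
      | zero => rfl
      | succ i ih => rw [pow_succ', MulAut.mul_apply, ih, Function.iterate_succ_apply']
    rw [hsσ, ← h1, hσp]
    rfl
  have hSi : ∀ (i : ℕ) (g : G), S ^ i * π g = π (s^[i] g) * S ^ i := by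
    intro i g
    induction i with
    | zero => simp
    | succ i ih =>
      rw [pow_succ', mul_assoc, ih, ← mul_assoc, hS, Function.iterate_succ_apply', mul_assoc]
      rfl
  have hN1 : (1 - S) * (∑ i ∈ Finset.range p, S ^ i) = 0 := by
    rw [mul_neg_geom_sum, hSp, sub_self]
  have hN2 : (∑ i ∈ Finset.range p, S ^ i) * (1 - S) = 0 := by
    rw [geom_sum_mul_neg, hSp, sub_self]
  refine ⟨h₀, h₁, ?_, ?_⟩
  · refine adm hp hF ι hι s hsc hs π hπ H (fun g hg => hg)
      _ _ h₀ h₁ (fun v => LinearMap.congr_fun hN1 v) ?_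
    intro v hv g
    have hSv : S v = v := (sub_eq_zero.1 hv).symm
    have hSv' : ∀ i : ℕ, (S ^ i) v = v := by
      intro i
      induction i with
      | zero => rfl
      | succ i ih => rw [pow_succ, Module.End.mul_apply, hSv, ih]
    refine ⟨π g v, ?_⟩
    rw [LinearMap.sum_apply]
    refine Finset.sum_congr rfl fun i _ => ?_
    rw [← Module.End.mul_apply, hSi, Module.End.mul_apply, hSv']
  · refine adm hp hF ι hι s hsc hs π hπ H (fun g hg => hg)
      _ _ h₁ h₀ (fun v => LinearMap.congr_fun hN2 v) ?_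
    intro v hv g
    set R := LinearMap.range (1 - S) with hR
    have hq : ∀ (i : ℕ) (w : V), R.mkQ ((S ^ i) w) = R.mkQ w := by
      intro i w
      induction i with
      | zero => rfl
      | succ i ih =>
        rw [← ih, pow_succ', Module.End.mul_apply, eq_comm, Submodule.mkQ_apply,
          Submodule.mkQ_apply, Submodule.Quotient.eq]
        exact ⟨(S ^ i) w, rfl⟩
    have h1 : ∀ i ∈ range p, R.mkQ (π (s^[i] g) v) = R.mkQ (π g ((S ^ (p - 1 - i)) (S v))) := by
      intro i hi
      have hi' := Finset.mem_range.1 hi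
      rw [← hq i (π g _), ← Module.End.mul_apply (S ^ i), hSi, Module.End.mul_apply,
        ← Module.End.mul_apply (S ^ i), ← pow_add, ← Module.End.mul_apply (S ^ _), ← pow_succ,
        show i + (p - 1 - i) + 1 = p by omega, hSp]
      rfl
    rw [← Submodule.Quotient.mk_eq_zero, ← Submodule.mkQ_apply, map_sum, Finset.sum_congr rfl h1,
      ← map_sum, ← map_sum, Finset.sum_range_reflect (fun i => (S ^ i) (S v)) p,
      ← LinearMap.sum_apply]
    have h2 : (∑ i ∈ Finset.range p, S ^ i) (S v) = 0 := by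
      have h3 := LinearMap.congr_fun hN2 v
      rw [Module.End.mul_apply, LinearMap.sub_apply, map_sub, Module.End.one_apply, hv,
        zero_sub, LinearMap.zero_apply, neg_eq_zero] at h3
      exact h3
    rw [h2, map_zero, map_zero]

end Pool.Agent.P.MP_60b77b_nt
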