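import Mathlib

namespace Pool.Agent.P.MP_60b77b_nt

variable {k E : Type*} [Field k] [AddCommGroup E] [Module k E]

/-- Descending chains of `Z`-stable subspaces of `U` stop. -/
def Dcc (Z : Set (Module.End k E)) (U : Submodule k E) : Prop :=
  ∀ L : ℕ → Submodule k E, Antitone L → (∀ n, ∀ z ∈ Z, ∀ v ∈ L n, z v ∈ L n) → (∀ n, L n ≤ U) →
    ∃ N, ∀ n, N ≤ n → L n = L N

theorem dcc_of_fin (Z : Set (Module.End k E)) (U : Submodule k E) [FiniteDimensional k U] :
    Dcc Z U := by
  intro L hL _ hU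
  have hf : ∀ n, FiniteDimensional k (L n) := fun n => Submodule.finiteDimensional_of_le (hU n)
  obtain ⟨N, hN⟩ := (wellFounded_lt (α := ℕ)).has_min
    (Set.range fun n => Module.finrank k (L n)) ⟨_, 0, rfl⟩
  obtain ⟨⟨N, rfl⟩, h2⟩ := hN
  exact ⟨N, fun n hn => Submodule.eq_of_le_of_finrank_le (hL hn) (not_lt.1 (h2 _ ⟨n, rfl⟩))⟩

theorem melk {Z : Set (Module.End k E)} {U : Submodule k E} {z : Module.End k E} (hz : z ∈ Z)
    (hc : ∀ z' ∈ Z, Commute z z') (hn : ∀ v, ∃ N, (z ^ N) v = 0)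
    (h : Dcc Z (U ⊓ LinearMap.ker z)) : Dcc Z U := by
  intro L hL hS hU
  let M : ℕ → ℕ → Submodule k E := fun i n => (L n ⊓ LinearMap.ker (z ^ (i + 1))).map (z ^ i)
  have hp : ∀ n i, ∀ v ∈ L n, (z ^ i) v ∈ L n := fun n i v hv => by
    induction i with
    | zero => exact hv
    | succ i ih => rw [pow_succ', Module.End.mul_apply]; exact hS n z hz _ ih
  have h1 : ∀ i n n', n ≤ n' → M i n' ≤ M i n := fun i n n' hn' =>
    Submodule.map_mono (inf_le_inf_right _ (hL hn'))
  have h2 : ∀ n, Antitone fun i => M i n := fun n => antitone_nat_of_succ_le fun i => by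
    rintro _ ⟨v, ⟨hv, hv'⟩, rfl⟩
    refine ⟨z v, ⟨hS n z hz v hv, ?_⟩, ?_⟩
    · rw [SetLike.mem_coe, LinearMap.mem_ker, ← Module.End.mul_apply, ← pow_succ]
      exact hv'
    · rw [← Module.End.mul_apply, ← pow_succ]
  have h3 : ∀ i n, ∀ z' ∈ Z, ∀ v ∈ M i n, z' v ∈ M i n := by
    rintro i n z' hz' _ ⟨v, ⟨hv, hv'⟩, rfl⟩
    refine ⟨z' v, ⟨hS n z' hz' v hv, ?_⟩, ?_⟩
    · rw [SetLike.mem_coe, LinearMap.mem_ker, ← Module.End.mul_apply,
        ((hc z' hz').pow_left _).eq, Module.End.mul_apply, LinearMap.mem_ker.1 hv', map_zero]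
    · rw [← Module.End.mul_apply, ((hc z' hz').pow_left _).eq, Module.End.mul_apply]
  have h4 : ∀ i n, M i n ≤ U ⊓ LinearMap.ker z := by
    rintro i n _ ⟨v, ⟨hv, hv'⟩, rfl⟩
    refine ⟨hU n (hp n i v hv), ?_⟩
    rw [SetLike.mem_coe, LinearMap.mem_ker, ← Module.End.mul_apply, ← pow_succ']
    exact hv'
  obtain ⟨N, hN⟩ := h (fun n => M n n)
    (fun a b hab => (h1 b a b hab).trans (h2 a hab)) (fun n => h3 n n) fun n => h4 n n
  choose f hf using fun i => h (M i) (fun a b hab => h1 i a b hab) (h3 i) (h4 i)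
  let N0 := max N ((Finset.range N).sup f)
  have h5 : ∀ n, N0 ≤ n → ∀ i, M i N0 ≤ M i n := by
    intro n hn' i
    by_cases hi : i < N
    · have : f i ≤ N0 := (Finset.le_sup (Finset.mem_range.2 hi)).trans (le_max_right _ _)
      rw [hf i n (this.trans hn'), hf i N0 this]
    · have e1 : M i N0 ≤ M N N :=
        (h1 i N N0 (le_max_left _ _)).trans (h2 N (not_lt.1 hi))
      have e2 : M (max i n) (max i n) ≤ M i n :=
        (h1 _ n _ (le_max_right _ _)).trans (h2 n (le_max_left _ _))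
      rw [← hN (max i n) ((not_lt.1 hi).trans (le_max_left _ _))] at e1
      exact e1.trans e2
  refine ⟨N0, fun n hn' => le_antisymm (hL hn') fun v hv => ?_⟩
  obtain ⟨t, ht⟩ := hn v
  induction t generalizing v with
  | zero =>
    have : v = 0 := ht
    rw [this]
    exact zero_mem _
  | succ t ih =>
    obtain ⟨u, ⟨hu, -⟩, e⟩ := h5 n hn' t ⟨v, ⟨hv, ht⟩, rfl⟩
    have := ih (v - u) (sub_mem hv (hL hn' hu)) (by rw [map_sub, e, sub_self])
    simpa using add_mem this hu

theorem dcc_of_ker {ι : Type*} {Z : Set (Module.End k E)} (z : ι → Module.End k E) (T : Finset ι)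
    (hz : ∀ y ∈ T, z y ∈ Z) (hc : ∀ a ∈ Z, ∀ b ∈ Z, Commute a b)
    (hn : ∀ y ∈ T, ∀ v, ∃ N, (z y ^ N) v = 0) (U : Submodule k E)
    (h : Dcc Z (U ⊓ ⨅ y ∈ T, LinearMap.ker (z y))) : Dcc Z U := by
  classical
  induction T using Finset.induction_on generalizing U with
  | empty => simpa using h
  | insert a T _ ih =>
    rw [Finset.iInf_insert, ← inf_assoc] at h
    exact melk (hz a (Finset.mem_insert_self _ _)) (hc _ (hz a (Finset.mem_insert_self _ _)))
      (hn a (Finset.mem_insert_self _ _))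
      (ih (fun y hy => hz y (Finset.mem_insert_of_mem hy))
        (fun y hy => hn y (Finset.mem_insert_of_mem hy)) _ h)

theorem fin_pow1 {U : Submodule k E} {x : Module.End k E} (hU : ∀ v ∈ U, x v ∈ U)
    (h : FiniteDimensional k ↥(U ⊓ LinearMap.ker x)) (n : ℕ) :
    FiniteDimensional k ↥(U ⊓ LinearMap.ker (x ^ n)) := by
  induction n with
  | zero =>
    have : U ⊓ LinearMap.ker (x ^ 0) ≤ U ⊓ LinearMap.ker x := fun v hv => by
      have : v = 0 := hv.2
      rw [this]
      exact zero_mem _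
    exact Submodule.finiteDimensional_of_le this
  | succ n ih =>
    rw [FiniteDimensional, Module.Finite.iff_fg] at h ih ⊢
    refine Submodule.fg_of_fg_map_of_fg_inf_ker x ?_ ?_
    · have : (U ⊓ LinearMap.ker (x ^ (n + 1))).map x ≤ U ⊓ LinearMap.ker (x ^ n) := by
        rintro _ ⟨v, ⟨hv, hv'⟩, rfl⟩
        refine ⟨hU v hv, ?_⟩
        rw [SetLike.mem_coe, LinearMap.mem_ker, ← Module.End.mul_apply, ← pow_succ]
        exact hv'
      have h0 := Module.Finite.iff_fg.2 ih
      exact Module.Finite.iff_fg.1 (Submodule.finiteDimensional_of_le this)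
    · have : U ⊓ LinearMap.ker (x ^ (n + 1)) ⊓ LinearMap.ker x ≤ U ⊓ LinearMap.ker x :=
        inf_le_inf_right _ inf_le_left
      have h0 := Module.Finite.iff_fg.2 h
      exact Module.Finite.iff_fg.1 (Submodule.finiteDimensional_of_le this)

theorem fin_pow {ι : Type*} (x : ι → Module.End k E) (hc : ∀ a b, Commute (x a) (x b))
    (n : ι → ℕ) (T : Finset ι) (U : Submodule k E) (hU : ∀ a, ∀ v ∈ U, x a v ∈ U)
    (h : FiniteDimensional k ↥(U ⊓ ⨅ y ∈ T, LinearMap.ker (x y))) :
    FiniteDimensional k ↥(U ⊓ ⨅ y ∈ T, LinearMap.ker (x y ^ n y)) := by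
  classical
  have hk : ∀ a b m, ∀ v ∈ LinearMap.ker (x b ^ m), x a v ∈ LinearMap.ker (x b ^ m) :=
    fun a b m v hv => by
      rw [LinearMap.mem_ker, ← Module.End.mul_apply, ((hc b a).pow_left m).eq,
        Module.End.mul_apply, LinearMap.mem_ker.1 hv, map_zero]
  induction T using Finset.induction_on generalizing U with
  | empty =>
    have e : ∀ f : ι → Submodule k E, ⨅ y ∈ (∅ : Finset ι), f y = ⊤ := fun f => by simp
    rw [e] at h ⊢
    exact h
  | insert a T _ ih =>
    rw [Finset.iInf_insert, ← inf_assoc] at h ⊢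
    have h1 := ih (U ⊓ LinearMap.ker (x a)) (fun b v hv => Submodule.mem_inf.2
      ⟨hU b v hv.1, by simpa using hk b a 1 v (by simpa using hv.2)⟩) h
    rw [inf_right_comm] at h1 ⊢
    refine fin_pow1 (U := U ⊓ ⨅ y ∈ T, LinearMap.ker (x y ^ n y))
      (fun v hv => Submodule.mem_inf.2 ⟨hU a v hv.1, ?_⟩) h1 _
    have := (Submodule.mem_inf.1 hv).2
    simp only [Submodule.mem_iInf] at this ⊢
    exact fun y hy => hk a y _ v (this y hy)

/-- An additive map to a domain of characteristic `p` with a zero on every orbit is zero. -/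
theorem zero_of_orbits {Γ D : Type*} [Group Γ] [CommRing D] {p : ℕ} (hp : p.Prime) [CharP D p]
    (s : Γ →* Γ) (hs : ∀ g, s^[p] g = g) (φ : Γ → D) (h1 : ∀ a b, φ (a * b) = φ a + φ b)
    (h2 : ∀ y, ∃ i : ℕ, φ (s^[i] y) = 0) : φ = 0 := by
  have : Fact p.Prime := ⟨hp⟩
  let u : Module.End D (Γ → D) := LinearMap.funLeft D D s
  have hu : ∀ (i : ℕ) (ψ : Γ → D) (y : Γ), (u ^ i) ψ y = ψ (s^[i] y) := by
    intro i
    induction i with
    | zero => exact fun _ _ => rfl
    | succ i ih =>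
      intro ψ y
      rw [pow_succ, Module.End.mul_apply, ih, Function.iterate_succ_apply']
      rfl
  have key : ∀ (t : ℕ) (ψ : Γ → D), (∀ a b, ψ (a * b) = ψ a + ψ b) →
      (∀ y, ∃ i : ℕ, ψ (s^[i] y) = 0) → ((u - 1) ^ t) ψ = 0 → ψ = 0 := by
    intro t
    induction t with
    | zero => exact fun ψ _ _ h => h
    | succ t ih =>
      intro ψ a1 a2 h
      have e : ∀ y, (u - 1) ψ y = ψ (s y) - ψ y := fun y => rfl
      have e' : ∀ y, (u - 1) ψ y = ψ (y⁻¹ * s y) := fun y => by
        rw [e, sub_eq_iff_eq_add', ← a1, mul_inv_cancel_left]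
      have h3 := ih ((u - 1) ψ) (fun a b => by rw [e, e, e, map_mul, a1, a1]; ring)
        (fun y => by
          obtain ⟨i, hi⟩ := a2 (y⁻¹ * s y)
          refine ⟨i, ?_⟩
          rw [e', ← hi, iterate_map_mul, iterate_map_inv, ← Function.iterate_succ_apply,
            Function.iterate_succ_apply'])
        (by rw [← Module.End.mul_apply, ← pow_succ]; exact h)
      funext y
      obtain ⟨i, hi⟩ := a2 y
      have h4 : ∀ i : ℕ, ψ (s^[i] y) = ψ y := fun i => by
        induction i with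
        | zero => rfl
        | succ i ih =>
          rw [Function.iterate_succ_apply', ← ih, ← sub_eq_zero, ← e, h3]
          rfl
      rw [← h4 i, hi]
      rfl
  refine key p φ h1 h2 ?_
  rcases subsingleton_or_nontrivial (Module.End D (Γ → D)) with h0 | h0
  · rw [Subsingleton.elim ((u - 1) ^ p) 0]
    rfl
  · have : CharP (Module.End D (Γ → D)) p :=
      (CharP.charP_iff_prime_eq_zero hp).2 (by
        rw [← map_natCast (algebraMap D (Module.End D (Γ → D))), CharP.cast_eq_zero, map_zero])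
    have e : u ^ p = 1 := LinearMap.ext fun ψ => funext fun y => by rw [hu, hs]; rfl
    rw [sub_pow_char_of_commute _ (Commute.one_right u), e, one_pow, sub_self]
    rfl

end Pool.Agent.P.MP_60b77b_nt
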