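import Pool.Agent.P.MP_60b77b_nt.Sym
import Pool.Agent.P.MP_60b77b_nt.Core

namespace Pool.Agent.P.MP_60b77b_nt

open Finset

variable {k Γ V : Type*} [Field k] [Group Γ] [AddCommGroup V] [Module k V]

theorem fin_norms {p : ℕ} (hp : p.Prime) [CharP k p] (s : Γ →* Γ) (hs : ∀ g, s^[p] g = g)
    (X : Γ → Module.End k V) (hX : ∀ a b, X (a * b) = X a + X b)
    (hc : ∀ a b, Commute (X a) (X b)) (T : Finset Γ)
    (hT : ∀ y, ∃ t ∈ T, ∀ i : ℕ, X (s^[i] y) = X (s^[i] t)) (l : List ℕ) (N : ℕ)
    (hf : FiniteDimensional k ↥(⨅ g, LinearMap.ker (X g))) :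
    FiniteDimensional k ↥(⨅ y ∈ T, LinearMap.ker (l.map fun i => X (s^[i] y) ^ N).prod) := by
  let B := Algebra.adjoin k (Set.range X)
  have hB : IsMulCommutative B := Algebra.isMulCommutative_adjoin k (by
    rintro _ ⟨a, rfl⟩ _ ⟨b, rfl⟩
    exact hc a b)
  let : CommRing B := { (inferInstance : Ring B) with mul_comm := hB.is_comm.comm }
  let X' : Γ → B := fun g => ⟨X g, Algebra.subset_adjoin ⟨g, rfl⟩⟩
  let U := ⨅ y ∈ T, LinearMap.ker (l.map fun i => X (s^[i] y) ^ N).prod
  let I : Ideal B :=
    { carrier := {b | ∀ v ∈ U, b.1 v = 0}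
      add_mem' := fun {a b} ha hb v hv => by
        show a.1 v + b.1 v = 0
        rw [ha v hv, hb v hv, add_zero]
      zero_mem' := fun _ _ => rfl
      smul_mem' := fun c b hb v hv => by
        show c.1 (b.1 v) = 0
        rw [hb v hv, map_zero] }
  have h1 : ∀ g, X' g ∈ I.radical := by
    intro g
    rw [Ideal.radical_eq_sInf, Submodule.mem_sInf]
    rintro J ⟨hJ, hJp⟩
    have : CharP (B ⧸ J) p := (CharP.charP_iff_prime_eq_zero hp).2 (by
      have e : ((p : ℕ) : B) = 0 := Subtype.ext (by
        show ((B.val (p : B) : Module.End k V)) = 0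
        rw [map_natCast, ← map_natCast (algebraMap k (Module.End k V)), CharP.cast_eq_zero,
          map_zero])
      rw [← map_natCast (Ideal.Quotient.mk J), e, map_zero])
    have h2 := zero_of_orbits hp s hs (fun g => Ideal.Quotient.mk J (X' g))
      (fun a b => by
        rw [← map_add]
        exact congrArg _ (Subtype.ext (hX a b)))
      (fun y => by
        obtain ⟨t, ht, e⟩ := hT y
        have h3 : (l.map fun i => X' (s^[i] t) ^ N).prod ∈ I := fun v hv => by
          have e2 : ((l.map fun i => X' (s^[i] t) ^ N).prod).1 =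
              (l.map fun i => X (s^[i] t) ^ N).prod := by
            show B.val _ = _
            rw [map_list_prod, List.map_map]
            rfl
          rw [e2]
          exact (Submodule.mem_iInf _).1 ((Submodule.mem_iInf _).1 hv t) ht
        have h4 := Ideal.Quotient.eq_zero_iff_mem.2 (hJ h3)
        rw [map_list_prod, List.prod_eq_zero_iff, List.map_map, List.mem_map] at h4
        obtain ⟨i, -, hi⟩ := h4
        refine ⟨i, ?_⟩
        have e3 : X' (s^[i] y) = X' (s^[i] t) := Subtype.ext (e i)
        rw [e3]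
        exact pow_eq_zero_iff' .. |>.1 ((map_pow _ _ _).symm.trans hi) |>.1)
    exact Ideal.Quotient.eq_zero_iff_mem.1 (congrFun h2 g)
  choose n hn using h1
  have h5 := fin_pow X hc n T ⊤ (fun _ _ _ => trivial) (by
    refine Submodule.finiteDimensional_of_le (S₂ := ⨅ g, LinearMap.ker (X g)) fun v hv => ?_
    refine (Submodule.mem_iInf _).2 fun g => ?_
    obtain ⟨t, ht, e⟩ := hT g
    have e0 : X g = X t := e 0
    rw [e0]
    exact (Submodule.mem_iInf _).1 ((Submodule.mem_iInf _).1 hv.2 t) ht)
  refine Submodule.finiteDimensional_of_le (S₂ := ⊤ ⊓ ⨅ y ∈ T, LinearMap.ker (X y ^ n y))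
    fun v hv => ⟨trivial, (Submodule.mem_iInf _).2 fun g => (Submodule.mem_iInf _).2 fun _ => ?_⟩
  exact hn g v hv

theorem shift_fixed {n : ℕ} {I : Finset (ZMod (n + 1))} (hI : I.image (· + 1) = I) :
    I = ∅ ∨ I = univ := by
  rcases I.eq_empty_or_nonempty with e | ⟨i, hi⟩
  · exact Or.inl e
  · have h1 : ∀ j : ℕ, i + j ∈ I := fun j => by
      induction j with
      | zero => simpa using hi
      | succ j ih =>
        rw [← hI, Nat.cast_succ, ← add_assoc]
        exact mem_image_of_mem _ ih
    refine Or.inr (eq_univ_of_forall fun x => ?_)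
    simpa using h1 (x - i).val

theorem sum_norm {A M : Type*} [CommGroup A] [AddCommGroup M] [Module k M] {n : ℕ}
    (hp : (n + 1).Prime) [CharP k (n + 1)] (t : A →* A) (y : ZMod (n + 1) → A)
    (hy : ∀ i, t (y i) = y (i + 1)) (ψ : A → M)
    (hψ : ∀ a, ∑ i ∈ range (n + 1), ψ (t^[i] a) = 0) :
    ∑ I ∈ univ.powerset, (-1 : k) ^ I.card • ψ (∏ i ∈ I, y i) = ψ 1 - ψ (∏ i, y i) := by
  classical
  have : Fact (n + 1).Prime := ⟨hp⟩
  let τ : Finset (ZMod (n + 1)) → Finset (ZMod (n + 1)) := fun I => I.image (· + 1)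
  have h1 : ∀ (i : ℕ) I, τ^[i] I = I.image (· + (i : ZMod (n + 1))) := fun i I => by
    induction i with
    | zero => simp
    | succ i ih =>
      rw [Function.iterate_succ_apply', ih]
      simp only [τ, image_image, Nat.cast_succ, ← add_assoc]
      rfl
  have h2 : ∀ I, τ^[n + 1] I = I := fun I => by
    rw [h1, ZMod.natCast_self]
    simp
  have h3 : ∀ (i : ℕ) I, (τ^[i] I).card = I.card ∧ ∏ j ∈ τ^[i] I, y j = t^[i] (∏ j ∈ I, y j) :=
    fun i I => by
    induction i with
    | zero => simp
    | succ i ih =>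
      rw [Function.iterate_succ_apply', Function.iterate_succ_apply', ← ih.1, ← ih.2, map_prod]
      exact ⟨card_image_of_injective _ (add_left_injective 1), by
        rw [prod_image (add_left_injective 1).injOn]
        exact prod_congr rfl fun j _ => (hy j).symm⟩
  have h4 := sum_nonfixed_eq_zero hp τ h2 (fun I => (-1 : k) ^ I.card • ψ (∏ i ∈ I, y i))
    (fun I _ => by
      simp only [(h3 _ I).1, (h3 _ I).2]
      rw [← smul_sum, hψ, smul_zero])
    (univ.powerset.filter fun I => ¬ τ I = I) (fun I hI => (mem_filter.1 hI).2)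
    (fun I hI => mem_filter.2 ⟨mem_powerset.2 (subset_univ _), fun e => (mem_filter.1 hI).2
      (image_injective (add_left_injective 1) e)⟩)
  have h5 : (univ.powerset.filter fun I => τ I = I) = {∅, univ} := by
    ext I
    simp only [mem_filter, mem_powerset, subset_univ, true_and, mem_insert, mem_singleton]
    refine ⟨shift_fixed, ?_⟩
    rintro (rfl | rfl)
    · exact image_empty _
    · exact image_univ_of_surjective (add_right_surjective 1)
  rw [← sum_filter_add_sum_filter_not _ fun I => τ I = I, h4, h5, add_zero,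
    sum_pair univ_nonempty.ne_empty.symm, card_empty, pow_zero, one_smul, prod_empty, card_univ,
    ZMod.card, neg_one_pow_char, neg_smul, one_smul, sub_eq_add_neg]

end Pool.Agent.P.MP_60b77b_nt
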