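import Pool.Agent.P.MP_60b77b_nt.Fil

namespace Pool.Agent.P.MP_60b77b_nt

variable {k Γ V : Type*} [Field k] [Group Γ] [AddCommGroup V] [Module k V]
  (π : Representation k Γ V)

/-- Sequences that represent elements of the graded module. -/
def Rr : Submodule k (ℕ → V) where
  carrier := {f | (∀ j, f j ∈ Wf π (j + 1)) ∧ ∃ N, ∀ j, N ≤ j → f j ∈ Wf π j}
  add_mem' := fun ⟨ha, N, hN⟩ ⟨hb, M, hM⟩ => ⟨fun j => add_mem (ha j) (hb j), max N M,
    fun j hj => add_mem (hN j (le_of_max_le_left hj)) (hM j (le_of_max_le_right hj))⟩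
  zero_mem' := ⟨fun _ => zero_mem _, 0, fun _ _ => zero_mem _⟩
  smul_mem' := fun c _ ⟨ha, N, hN⟩ => ⟨fun j => Submodule.smul_mem _ c (ha j), N,
    fun j hj => Submodule.smul_mem _ c (hN j hj)⟩

/-- Sequences that represent zero. -/
def Rz : Submodule k (Rr π) where
  carrier := {f | ∀ j, f.1 j ∈ Wf π j}
  add_mem' := fun ha hb j => add_mem (ha j) (hb j)
  zero_mem' := fun _ => zero_mem _
  smul_mem' := fun c _ ha j => Submodule.smul_mem _ c (ha j)

/-- The graded module. -/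
abbrev Gr := Rr π ⧸ Rz π

/-- `x` is the symbol of `a` in degree `r`. -/
def IsSym (r : ℕ) (a : Module.End k V) (x : Module.End k (Gr π)) : Prop :=
  a ∈ Dg π r ∧ ∀ f g : Rr π, (∀ j, g.1 j = a (f.1 (j + r))) → x ((Rz π).mkQ f) = (Rz π).mkQ g

variable {π}

theorem mk_eq {f g : Rr π} : (Rz π).mkQ f = (Rz π).mkQ g ↔ ∀ j, f.1 j - g.1 j ∈ Wf π j :=
  Submodule.Quotient.eq _

theorem mk_zero {f : Rr π} : (Rz π).mkQ f = 0 ↔ ∀ j, f.1 j ∈ Wf π j :=
  Submodule.Quotient.mk_eq_zero _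

/-- The shifted action on sequences. -/
def sh {r : ℕ} {a : Module.End k V} (ha : a ∈ Dg π r) : Rr π →ₗ[k] Rr π where
  toFun f := ⟨fun j => a (f.1 (j + r)), fun j => ha _ _ (by rw [add_right_comm]; exact f.2.1 _), by
    obtain ⟨N, hN⟩ := f.2.2
    exact ⟨N, fun j hj => ha _ _ (hN _ (hj.trans (Nat.le_add_right _ _)))⟩⟩
  map_add' f g := Subtype.ext (funext fun j => map_add a _ _)
  map_smul' c f := Subtype.ext (funext fun j => map_smul a _ _)

theorem exists_sym {r : ℕ} {a : Module.End k V} (ha : a ∈ Dg π r) : ∃ x, IsSym π r a x :=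
  ⟨(Rz π).mapQ (Rz π) (sh ha) fun f hf j => ha _ _ (hf _), ha, fun f g e => by
    have : g = sh ha f := Subtype.ext (funext e)
    rw [this]
    rfl⟩

namespace IsSym

variable {r t : ℕ} {a b : Module.End k V} {x y : Module.End k (Gr π)}

theorem app (h : IsSym π r a x) (f : Rr π) : x ((Rz π).mkQ f) = (Rz π).mkQ (sh h.1 f) :=
  h.2 f _ fun _ => rfl

theorem congr (h : IsSym π r a x) (e : a - b ∈ Dg π (r + 1)) : IsSym π r b x :=
  ⟨by simpa using sub_mem h.1 (Dg_anti (Nat.le_succ r) e), fun f g hg => by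
    rw [h.app, mk_eq]
    intro j
    rw [hg]
    exact e j _ (f.2.1 _)⟩

theorem unique (h : IsSym π r a x) (h' : IsSym π r a y) : x = y :=
  LinearMap.ext fun e => by
    obtain ⟨f, rfl⟩ := (Rz π).mkQ_surjective e
    rw [h.app, h'.app]

theorem mul (h : IsSym π r a x) (h' : IsSym π t b y) : IsSym π (r + t) (a * b) (x * y) :=
  ⟨Dg_mul h.1 h'.1, fun f g hg => by
    rw [Module.End.mul_apply, h'.app]
    exact h.2 _ _ fun j => by rw [hg, ← add_assoc]; rfl⟩

theorem add (h : IsSym π r a x) (h' : IsSym π r b y) : IsSym π r (a + b) (x + y) :=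
  ⟨add_mem h.1 h'.1, fun f g hg => by
    rw [LinearMap.add_apply, h.app, h'.app, ← map_add]
    exact congrArg _ (Subtype.ext (funext fun j => (hg j).symm))⟩

theorem one : IsSym π 0 1 1 :=
  ⟨Dg_one, fun _ _ hg => congrArg (Rz π).mkQ (Subtype.ext (funext fun j => (hg j).symm))⟩

theorem pow (h : IsSym π r a x) (n : ℕ) : IsSym π (r * n) (a ^ n) (x ^ n) := by
  induction n with
  | zero => exact one
  | succ n ih => rw [pow_succ, pow_succ, Nat.mul_succ]; exact ih.mul h

theorem nil (h : IsSym π r a x) (hr : 0 < r) (e : Gr π) : ∃ N, (x ^ N) e = 0 := by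
  obtain ⟨f, rfl⟩ := (Rz π).mkQ_surjective e
  obtain ⟨N, hN⟩ := f.2.2
  refine ⟨N, ?_⟩
  rw [(h.pow N).app, mk_zero]
  exact fun j => (h.pow N).1 j _ (hN _ (by nlinarith))

end IsSym

variable (π) in
/-- The symbol of `1 - g`. -/
noncomputable def Xs (g : Γ) : Module.End k (Gr π) := (exists_sym (Dg_sub g)).choose

theorem Xs_sym (g : Γ) : IsSym π 1 (1 - π g) (Xs π g) := (exists_sym (Dg_sub g)).choose_spec

theorem Xs_mul (a b : Γ) : Xs π (a * b) = Xs π a + Xs π b :=
  (Xs_sym _).unique (((Xs_sym a).add (Xs_sym b)).congr (by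
    have e : 1 - π a + (1 - π b) - (1 - π (a * b)) = (1 - π a) * (1 - π b) := by
      rw [map_mul]
      noncomm_ring
    rw [e]
    exact Dg_mul (Dg_sub a) (Dg_sub b)))

theorem fin_socle [FiniteDimensional k (Wf π 1)] :
    FiniteDimensional k ↥(⨅ g, LinearMap.ker (Xs π g)) := by
  let l : Wf π 1 →ₗ[k] Rr π := ((LinearMap.single k (fun _ : ℕ => V) 0).comp
    (Wf π 1).subtype).codRestrict _ fun v => ⟨fun j => by
      by_cases e : j = 0
      · subst e
        simp
      · simp [e], 1, fun j hj => by simp [show j ≠ 0 by omega]⟩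
  refine Submodule.finiteDimensional_of_le (S₂ := LinearMap.range ((Rz π).mkQ.comp l)) ?_
  intro e he
  obtain ⟨f, rfl⟩ := (Rz π).mkQ_surjective e
  refine ⟨⟨f.1 0, f.2.1 0⟩, mk_eq.2 fun j => ?_⟩
  show (Pi.single 0 (f.1 0) : ℕ → V) j - f.1 j ∈ _
  rcases j with _ | j
  · simp
  · rw [Pi.single_eq_of_ne (by omega), zero_sub]
    refine neg_mem ((mem_Wf π).2 fun g => ?_)
    have := LinearMap.mem_ker.1 ((Submodule.mem_iInf _).1 he g)
    rw [(Xs_sym g).app, mk_zero] at this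
    exact this j

theorem dcc_main (hex : ∀ v, ∃ j, v ∈ Wf π j) {ι : Type*} (T : Finset ι) (r : ι → ℕ)
    (hr : ∀ y, 0 < r y) (z : ι → Module.End k V) (Z : ι → Module.End k (Gr π))
    (hz : ∀ y, IsSym π (r y) (z y) (Z y)) (hc : ∀ a b, Commute (Z a) (Z b))
    (hf : FiniteDimensional k ↥(⨅ y ∈ T, LinearMap.ker (Z y))) (L : ℕ → Submodule k V)
    (hL : Antitone L) (hs : ∀ n y, ∀ v ∈ L n, z y v ∈ L n) : ∃ N, ∀ n, N ≤ n → L n = L N := by
  have h1 : Dcc (Set.range Z) (⊤ : Submodule k (Gr π)) := by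
    refine dcc_of_ker Z T (fun y _ => Set.mem_range_self y) ?_ (fun y _ => (hz y).nil (hr y)) ⊤ ?_
    · rintro _ ⟨a, rfl⟩ _ ⟨b, rfl⟩
      exact hc a b
    · rw [top_inf_eq]
      exact dcc_of_fin _ _
  let gr : Submodule k V → Submodule k (Gr π) := fun M =>
    ((Submodule.pi Set.univ fun _ => M).comap (Rr π).subtype).map (Rz π).mkQ
  obtain ⟨N, hN⟩ := h1 (fun n => gr (L n))
    (fun a b hab => Submodule.map_mono fun f hf j hj => hL hab (hf j hj))
    (by
      rintro n _ ⟨y, rfl⟩ _ ⟨f, hf, rfl⟩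
      exact ⟨sh (hz y).1 f, fun j _ => hs n y _ (hf _ trivial), ((hz y).app f).symm⟩)
    fun _ => le_top
  refine ⟨N, fun n hn => le_antisymm (hL hn) fun v hv => ?_⟩
  obtain ⟨j, hj⟩ := hex v
  induction j generalizing v with
  | zero =>
    have : v = 0 := hj
    rw [this]
    exact zero_mem _
  | succ j ih =>
    let f : Rr π := ⟨Pi.single j v, fun i => by
      by_cases e : i = j
      · subst e
        simpa using hj
      · simp [e], j + 1, fun i hi => by simp [show i ≠ j by omega]⟩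
    have h2 : (Rz π).mkQ f ∈ gr (L N) := ⟨f, fun i _ => by
      show (Pi.single j v : ℕ → V) i ∈ L N
      by_cases e : i = j
      · subst e
        simpa using hv
      · simp [e], rfl⟩
    have h3 := hN n hn
    rw [← h3] at h2
    obtain ⟨g, hg, e⟩ := h2
    have h4 : g.1 j - v ∈ Wf π j := by simpa [f] using mk_eq.1 e j
    have h5 : g.1 j ∈ L n := hg j trivial
    simpa using sub_mem h5 (ih _ (sub_mem (hL hn h5) hv) h4)

end Pool.Agent.P.MP_60b77b_nt
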